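import Mathlib
import Pool.Agent.H943.DP.AppB
import Pool.Agent.H943.DP.Gal
import Pool.Graph.R_pool_sql_team_seeded_63374d34.N768.BG.Cx
import Pool.Graph.R_seed8.Y224.TS.T2

/-!
# Completely reducible Lie algebras of matrices which are defined over a field `K` with algebraic
# closure `ℂ`: the form over `K` and the double commutant
-/

set_option autoImplicit false
set_option linter.unusedSectionVars false

namespace Pool.Agent.H943.LA

open Module Matrix Polynomial
open Pool.Agent.Y90 (Stab IrS CRed)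

noncomputable section

variable {K : Type} [Field K] [CharZero K] [Algebra K ℂ]
  {B : Type} [Fintype B] [DecidableEq B]

/-- the matrix over the complex numbers -/
def km (R : Matrix B B K) : Matrix B B ℂ := R.map (algebraMap K ℂ)

theorem km_mul (R S : Matrix B B K) : km (R * S) = km R * km S := Matrix.map_mul

theorem km_add (R S : Matrix B B K) : km (R + S) = km R + km S := by
  ext i j; simp [km]

theorem km_sub (R S : Matrix B B K) : km (R - S) = km R - km S := by
  ext i j; simp [km]

theorem km_zero : km (0 : Matrix B B K) = 0 := by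
  ext i j; simp [km]

theorem km_one : km (1 : Matrix B B K) = 1 := by
  ext i j
  by_cases h : i = j
  · subst h; simp [km]
  · simp [km, h]

theorem km_smul (c : K) (R : Matrix B B K) : km (c • R) = algebraMap K ℂ c • km R := by
  ext i j; simp [km]

theorem km_inj {R S : Matrix B B K} (h : km R = km S) : R = S := by
  ext i j
  have h1 := congrFun (congrFun h i) j
  exact (algebraMap K ℂ).injective h1

/-- the elements with entries in `K` -/
def kL (L : Submodule ℂ (Matrix B B ℂ)) : Submodule K (Matrix B B K) where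
  carrier := {R | km R ∈ L}
  zero_mem' := by
    change km 0 ∈ L
    rw [km_zero]
    exact L.zero_mem
  add_mem' := by
    intro a b ha hb
    change km (a + b) ∈ L
    rw [km_add]
    exact L.add_mem ha hb
  smul_mem' := by
    intro c a ha
    change km (c • a) ∈ L
    rw [km_smul]
    exact L.smul_mem _ ha

theorem mem_kL {L : Submodule ℂ (Matrix B B ℂ)} {R : Matrix B B K} : R ∈ kL L ↔ km R ∈ L := Iff.rfl

theorem kL_br {L : Submodule ℂ (Matrix B B ℂ)} (hbr : ∀ X ∈ L, ∀ Y ∈ L, X * Y - Y * X ∈ L)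
    {R S : Matrix B B K} (hR : R ∈ kL L) (hS : S ∈ kL L) : R * S - S * R ∈ kL L := by
  rw [mem_kL] at hR hS ⊢
  rw [km_sub, km_mul, km_mul]
  exact hbr _ hR _ hS

theorem fix_mem [Algebra.IsAlgebraic K ℂ] (x : ℂ) (h : ∀ γ : ℂ ≃ₐ[K] ℂ, γ x = x) :
    ∃ a : K, algebraMap K ℂ a = x := by
  have h1 : IsAlgClosure K ℂ := ⟨inferInstance, inferInstance⟩
  have h2 : Normal K ℂ := IsAlgClosure.normal K ℂ
  have hgal : IsGalois K ℂ := ⟨⟩
  exact (InfiniteGalois.mem_range_algebraMap_iff_fixed x).2 h

/-- **Galois descent**: a stable space is spanned by its elements with entries in `K`. -/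
theorem span_rat [Algebra.IsAlgebraic K ℂ] {X : Type} (V : Submodule ℂ (X → ℂ))
    [FiniteDimensional ℂ V]
    (hV : ∀ γ : ℂ ≃ₐ[K] ℂ, ∀ f ∈ V, (fun x => γ (f x)) ∈ V) {f : X → ℂ} (hf : f ∈ V) :
    f ∈ Submodule.span ℂ {f' | ∃ g : X → K, (fun x => algebraMap K ℂ (g x)) ∈ V ∧
      f' = fun x => algebraMap K ℂ (g x)} := by
  classical
  obtain ⟨κ, _, x, hcard, hinj, hsurj⟩ := DP.exists_points V
  have h3 : ∀ k, ∃ g : X → K, (fun y => algebraMap K ℂ (g y)) ∈ V ∧
      ∀ j, algebraMap K ℂ (g (x j)) = if j = k then 1 else 0 := by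
    intro k
    obtain ⟨f, hf, hfc⟩ := hsurj fun j => if j = k then 1 else 0
    have h3 : ∀ y, ∃ a : K, algebraMap K ℂ a = f y := by
      intro y
      apply fix_mem
      intro γ
      have h4 := hinj _ (V.sub_mem (hV γ f hf) hf) fun j => by
        rw [Pi.sub_apply, hfc]
        split_ifs
        · rw [map_one, sub_self]
        · rw [map_zero, sub_self]
      have h5 := congrFun h4 y
      rw [Pi.sub_apply, Pi.zero_apply] at h5
      exact sub_eq_zero.1 h5
    choose g hg using h3
    refine ⟨g, ?_, fun j => ?_⟩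
    · have : (fun y => algebraMap K ℂ (g y)) = f := funext hg
      rw [this]
      exact hf
    · rw [hg, hfc]
  choose g hg1 hg2 using h3
  have h4 : f = ∑ k, f (x k) • fun y => algebraMap K ℂ (g k y) := by
    have h5 := hinj (f - ∑ k, f (x k) • fun y => algebraMap K ℂ (g k y))
      (V.sub_mem hf (V.sum_mem fun k _ => V.smul_mem _ (hg1 k))) (fun j => by
        rw [Pi.sub_apply, Finset.sum_apply]
        have h6 : ∀ k, (f (x k) • fun y => algebraMap K ℂ (g k y)) (x j) =
            if j = k then f (x k) else 0 := by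
          intro k
          rw [Pi.smul_apply, hg2, smul_eq_mul]
          split_ifs <;> simp
        rw [Finset.sum_congr rfl fun k _ => h6 k, Finset.sum_ite_eq, if_pos (Finset.mem_univ j),
          sub_self])
    exact sub_eq_zero.1 h5
  rw [h4]
  exact Submodule.sum_mem _ fun k _ => Submodule.smul_mem _ _ (Submodule.subset_span
    ⟨g k, hg1 k, rfl⟩)

/-- A stable space of matrices is spanned by its elements with entries in `K`. -/
theorem span_kL [Algebra.IsAlgebraic K ℂ] {L : Submodule ℂ (Matrix B B ℂ)}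
    (hgal : ∀ γ : ℂ ≃ₐ[K] ℂ, ∀ X ∈ L, X.map γ ∈ L) {X : Matrix B B ℂ} (hX : X ∈ L) :
    X ∈ Submodule.span ℂ {Y | ∃ R ∈ kL (K := K) L, Y = km R} := by
  let e : Matrix B B ℂ ≃ₗ[ℂ] (B × B → ℂ) :=
    { toFun := fun M p => M p.1 p.2
      invFun := fun f => Matrix.of fun i j => f (i, j)
      map_add' := fun _ _ => rfl
      map_smul' := fun _ _ => rfl
      left_inv := fun _ => rfl
      right_inv := fun _ => rfl }
  let V : Submodule ℂ (B × B → ℂ) := L.map e.toLinearMap
  have h1 := span_rat (K := K) V (by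
    rintro γ _ ⟨Y, hY, rfl⟩
    exact ⟨Y.map γ, hgal γ Y hY, rfl⟩) (f := e X) ⟨X, hX, rfl⟩
  have h2 : ∀ f ∈ Submodule.span ℂ {f' : B × B → ℂ | ∃ g : B × B → K,
      (fun x => algebraMap K ℂ (g x)) ∈ V ∧ f' = fun x => algebraMap K ℂ (g x)},
      e.symm f ∈ Submodule.span ℂ {Y | ∃ R ∈ kL (K := K) L, Y = km R} := by
    intro f hf
    induction hf using Submodule.span_induction with
    | mem f hf =>
      obtain ⟨g, ⟨Y, hY, hYg⟩, rfl⟩ := hf
      refine Submodule.subset_span ⟨Matrix.of fun i j => g (i, j), ?_, ?_⟩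
      · rw [mem_kL]
        have h3 : km (Matrix.of fun i j => g (i, j)) = Y := by
          ext i j
          exact (congrFun hYg (i, j)).symm
        rw [h3]
        exact hY
      · rfl
    | zero => rw [map_zero]; exact Submodule.zero_mem _
    | add x y _ _ h1 h2 => rw [map_add]; exact Submodule.add_mem _ h1 h2
    | smul a x _ h1 => rw [map_smul]; exact Submodule.smul_mem _ a h1
  have h3 := h2 _ h1
  rwa [LinearEquiv.symm_apply_apply] at h3

/-- Descent of the membership in a subspace. -/
theorem desc (V : Submodule K (Matrix B B K)) {X : Matrix B B K}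
    (h : km X ∈ Submodule.span ℂ {Y | ∃ R ∈ V, Y = km R}) : X ∈ V := by
  by_contra hX
  have h1 : V.mkQ X ≠ 0 := fun h0 => hX ((Submodule.Quotient.mk_eq_zero V).1 h0)
  obtain ⟨φ, hφ⟩ : ∃ φ : Module.Dual K (Matrix B B K ⧸ V), φ (V.mkQ X) ≠ 0 := by
    by_contra hcon
    push Not at hcon
    exact h1 ((Module.forall_dual_apply_eq_zero_iff K _).1 hcon)
  let f : Matrix B B K →ₗ[K] K := φ.comp V.mkQ
  have hfV : ∀ R ∈ V, f R = 0 := by
    intro R hR
    change φ (V.mkQ R) = 0
    have h2 : V.mkQ R = 0 := (Submodule.Quotient.mk_eq_zero V).2 hR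
    rw [h2, map_zero]
  let F : Matrix B B ℂ →ₗ[ℂ] ℂ :=
    { toFun := fun M => ∑ i, ∑ j, M i j * algebraMap K ℂ (f (Matrix.single i j 1))
      map_add' := fun M N => by
        simp only [Matrix.add_apply, add_mul, Finset.sum_add_distrib]
      map_smul' := fun c M => by
        simp only [Matrix.smul_apply, smul_eq_mul, RingHom.id_apply, Finset.mul_sum, mul_assoc] }
  have hF : ∀ R : Matrix B B K, F (km R) = algebraMap K ℂ (f R) := by
    intro R
    have h2 : R = ∑ i, ∑ j, R i j • Matrix.single i j (1 : K) := by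
      conv_lhs => rw [Matrix.matrix_eq_sum_single R]
      refine Finset.sum_congr rfl fun i _ => Finset.sum_congr rfl fun j _ => ?_
      rw [Matrix.smul_single, smul_eq_mul, mul_one]
    change ∑ i, ∑ j, km R i j * algebraMap K ℂ (f (Matrix.single i j 1)) = _
    conv_rhs => rw [h2]
    simp only [map_sum, map_smul, smul_eq_mul, map_mul]
    rfl
  have h2 : ∀ Y ∈ Submodule.span ℂ {Y : Matrix B B ℂ | ∃ R ∈ V, Y = km R}, F Y = 0 := by
    intro Y hY
    induction hY using Submodule.span_induction with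
    | mem Y hY =>
      obtain ⟨R, hR, rfl⟩ := hY
      rw [hF, hfV R hR, map_zero]
    | zero => exact map_zero F
    | add x y _ _ h1 h2 => rw [map_add, h1, h2, add_zero]
    | smul a x _ h1 => rw [map_smul, h1, smul_zero]
  have h3 := h2 _ h
  rw [hF] at h3
  exact hφ ((map_eq_zero_iff _ (algebraMap K ℂ).injective).1 h3)

/-- `X` commutes with everything that commutes with `L`. -/
def InC (L : Submodule ℂ (Matrix B B ℂ)) (X : Matrix B B K) : Prop :=
  ∀ P : Matrix B B ℂ, (∀ Y ∈ L, P * Y = Y * P) → P * km X = km X * P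

theorem InC.add {L : Submodule ℂ (Matrix B B ℂ)} {X Y : Matrix B B K} (hX : InC L X)
    (hY : InC L Y) : InC L (X + Y) := fun P hP => by
  rw [km_add, mul_add, add_mul, hX P hP, hY P hP]

theorem InC.mul {L : Submodule ℂ (Matrix B B ℂ)} {X Y : Matrix B B K} (hX : InC L X)
    (hY : InC L Y) : InC L (X * Y) := fun P hP => by
  rw [km_mul, ← mul_assoc, hX P hP, mul_assoc, hY P hP, ← mul_assoc]

theorem InC.of_kL {L : Submodule ℂ (Matrix B B ℂ)} {X : Matrix B B K} (hX : X ∈ kL L) :
    InC L X := fun _ hP => hP _ hX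

theorem InC.alg {L : Submodule ℂ (Matrix B B ℂ)} (c : K) :
    InC L (algebraMap K (Matrix B B K) c) := fun P _ => by
  rw [Algebra.algebraMap_eq_smul_one, km_smul, km_one, mul_smul_comm, smul_mul_assoc, mul_one,
    one_mul]

/-- the double commutant -/
def CA (K : Type) [Field K] [CharZero K] [Algebra K ℂ] (L : Submodule ℂ (Matrix B B ℂ)) :
    Subalgebra K (Matrix B B K) where
  carrier := {X | InC L X}
  mul_mem' := InC.mul
  add_mem' := InC.add
  algebraMap_mem' := InC.alg

theorem mem_CA {L : Submodule ℂ (Matrix B B ℂ)} {X : Matrix B B K} : X ∈ CA K L ↔ InC L X :=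
  Iff.rfl

/-- The double commutant over the complex numbers. -/
theorem dcommC {L : Submodule ℂ (Matrix B B ℂ)} (hred : CRed L) {X : Matrix B B ℂ}
    (hX : ∀ P : Matrix B B ℂ, (∀ Y ∈ L, P * Y = Y * P) → P * X = X * P) :
    X ∈ Algebra.adjoin ℂ (L : Set (Matrix B B ℂ)) := by
  classical
  let T : Matrix B B ℂ ≃ₐ[ℂ] Module.End ℂ (B → ℂ) := Matrix.toLinAlgEquiv'
  have hT : ∀ Y v, T Y v = Y *ᵥ v := fun Y v => rfl
  let R : Subalgebra ℂ (Module.End ℂ (B → ℂ)) :=
    (Algebra.adjoin ℂ (L : Set (Matrix B B ℂ))).map T.toAlgHom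
  have hRm : ∀ Y ∈ L, T Y ∈ R := fun Y hY => ⟨Y, Algebra.subset_adjoin hY, rfl⟩
  have hss : IsSemisimpleModule R (B → ℂ) := by
    refine (isSemisimpleModule_iff _ _).2 ⟨fun U => ?_⟩
    have hU : ∀ Y ∈ L, ∀ u ∈ U, Y *ᵥ u ∈ U := fun Y hY u hu =>
      U.smul_mem (⟨T Y, hRm Y hY⟩ : R) hu
    obtain ⟨π, h1, h2, h3⟩ := hred (U.restrictScalars ℂ) hU
    have h1' : ∀ Y ∈ Algebra.adjoin ℂ (L : Set (Matrix B B ℂ)), ∀ w, π (Y *ᵥ w) = Y *ᵥ π w := by
      intro Y hY
      induction hY using Algebra.adjoin_induction with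
      | mem Y hY => exact h1 Y hY
      | algebraMap c =>
        intro w
        rw [Algebra.algebraMap_eq_smul_one, smul_mulVec, one_mulVec, smul_mulVec, one_mulVec,
          map_smul]
      | add a b _ _ ha hb =>
        intro w
        rw [add_mulVec, add_mulVec, map_add, ha, hb]
      | mul a b _ _ ha hb =>
        intro w
        rw [← mulVec_mulVec, ← mulVec_mulVec, ha, hb]
    let U' : Submodule R (B → ℂ) :=
      { carrier := {w | π w = 0}
        zero_mem' := map_zero π
        add_mem' := fun {a b} (ha : π a = 0) (hb : π b = 0) => by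
          change π (a + b) = 0
          rw [map_add, ha, hb, add_zero]
        smul_mem' := by
          rintro ⟨_, Y, hY, rfl⟩ w (hw : π w = 0)
          change π (Y *ᵥ w) = 0
          rw [h1' Y hY, hw, mulVec_zero] }
    refine ⟨U', ?_, ?_⟩
    · rw [Submodule.disjoint_def]
      intro u hu hu'
      have h4 : π u = u := h3 u hu
      rw [← h4]
      exact hu'
    · rw [codisjoint_iff, eq_top_iff]
      intro v _
      have h5 : v = π v + (v - π v) := by abel
      rw [h5]
      refine Submodule.add_mem_sup (h2 v) ?_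
      change π (v - π v) = 0
      rw [map_sub, h3 _ (h2 v), sub_self]
  let f : Module.End (Module.End R (B → ℂ)) (B → ℂ) :=
    { toFun := fun v => X *ᵥ v
      map_add' := fun u v => mulVec_add _ _ _
      map_smul' := fun φ v => by
        have hq : ∀ (c : ℂ) (w : B → ℂ), φ (c • w) = c • φ w := by
          intro c w
          exact map_smul φ (algebraMap ℂ R c) w
        let φ0 : (B → ℂ) →ₗ[ℂ] (B → ℂ) :=
          { toFun := φ
            map_add' := map_add φ
            map_smul' := hq }
        have hψ : ∀ w, LinearMap.toMatrix' φ0 *ᵥ w = φ w := fun w =>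
          LinearMap.toMatrix'_mulVec φ0 w
        have hcm : ∀ Y ∈ L, LinearMap.toMatrix' φ0 * Y = Y * LinearMap.toMatrix' φ0 := by
          intro Y hY
          have h2 : ∀ w, (LinearMap.toMatrix' φ0 * Y) *ᵥ w = (Y * LinearMap.toMatrix' φ0) *ᵥ w := by
            intro w
            rw [← mulVec_mulVec, ← mulVec_mulVec, hψ, hψ]
            exact map_smul φ (⟨T Y, hRm Y hY⟩ : R) w
          ext i j
          have h5 := congrFun (h2 (Pi.single j 1)) i
          rwa [mulVec_single_one, mulVec_single_one] at h5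
        have h3 := hX _ hcm
        change X *ᵥ (φ v) = φ (X *ᵥ v)
        rw [← hψ, ← hψ, mulVec_mulVec, mulVec_mulVec, h3] }
  obtain ⟨⟨_, Y, hY, rfl⟩, hr⟩ := jacobson_density (R := R) (M := B → ℂ) f
    (Finset.univ.image fun i : B => (Pi.single i 1 : B → ℂ))
  have hXY : X = Y := by
    ext i j
    have h1 := hr (Pi.single j 1) (Finset.mem_image.2 ⟨j, Finset.mem_univ _, rfl⟩)
    have h2 : X *ᵥ Pi.single j 1 = Y *ᵥ Pi.single j 1 := h1
    rw [mulVec_single_one, mulVec_single_one] at h2
    exact congrFun h2 i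
  rw [hXY]
  exact hY

/-- **The double commutant** over `K`. -/
theorem dcomm [Algebra.IsAlgebraic K ℂ] {L : Submodule ℂ (Matrix B B ℂ)}
    (hgal : ∀ γ : ℂ ≃ₐ[K] ℂ, ∀ X ∈ L, X.map γ ∈ L) (hred : CRed L) {X : Matrix B B K}
    (hX : InC L X) : X ∈ Algebra.adjoin K (kL (K := K) L : Set (Matrix B B K)) := by
  have h1 := dcommC hred hX
  have h2 : ∀ Y ∈ Algebra.adjoin ℂ (L : Set (Matrix B B ℂ)),
      Y ∈ Submodule.span ℂ {Y : Matrix B B ℂ | ∃ R ∈ (Algebra.adjoin K
        (kL (K := K) L : Set (Matrix B B K))).toSubmodule, Y = km R} := by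
    intro Y hY
    induction hY using Algebra.adjoin_induction with
    | mem Y hY =>
      refine Submodule.span_mono ?_ (span_kL hgal hY)
      rintro _ ⟨R, hR, rfl⟩
      exact ⟨R, Algebra.subset_adjoin hR, rfl⟩
    | algebraMap c =>
      rw [Algebra.algebraMap_eq_smul_one, ← km_one (K := K)]
      exact Submodule.smul_mem _ _ (Submodule.subset_span ⟨1, Subalgebra.one_mem _, rfl⟩)
    | add a b _ _ ha hb => exact Submodule.add_mem _ ha hb
    | mul a b ha0 hb0 ha hb =>
      clear ha0 hb0
      induction ha using Submodule.span_induction with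
      | mem a ha =>
        obtain ⟨R, hR, rfl⟩ := ha
        induction hb using Submodule.span_induction with
        | mem b hb =>
          obtain ⟨S, hS, rfl⟩ := hb
          exact Submodule.subset_span ⟨R * S, Subalgebra.mul_mem _ hR hS, (km_mul R S).symm⟩
        | zero => rw [mul_zero]; exact Submodule.zero_mem _
        | add x y _ _ h1 h2 => rw [mul_add]; exact Submodule.add_mem _ h1 h2
        | smul c x _ h1 => rw [mul_smul_comm]; exact Submodule.smul_mem _ c h1
      | zero => rw [zero_mul]; exact Submodule.zero_mem _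
      | add x y _ _ h1 h2 => rw [add_mul]; exact Submodule.add_mem _ h1 h2
      | smul c x _ h1 => rw [smul_mul_assoc]; exact Submodule.smul_mem _ c h1
  exact desc _ (h2 _ h1)

end

end Pool.Agent.H943.LA
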