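import Mathlib
import Pool.Agent.H943.LA.Abs

/-!
# Lie algebras of matrices over `K` whose double commutant has a component which is a division
# algebra of prime power degree
-/

set_option autoImplicit false
set_option linter.unusedSectionVars false

namespace Pool.Agent.H943.LA

open Module Matrix Polynomial
open Pool.Agent.Y90 (Stab IrS CRed)

noncomputable section

variable {K : Type} [Field K] [CharZero K] [Algebra K ℂ]
  {B : Type} [Fintype B] [DecidableEq B]

/-- A representation of the component that belongs to `z` of the algebra with the elements `C`. -/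
structure IsRepK (C : Matrix B B K → Prop) (z : Matrix B B K)
    {r : ℕ} (φ : Matrix B B K → Matrix (Fin r) (Fin r) K) : Prop where
  add : ∀ X Y, C X → C Y → φ (X + Y) = φ X + φ Y
  mul : ∀ X Y, C X → C Y → φ (X * Y) = φ X * φ Y
  one : φ 1 = 1
  zero : ∀ X, C X → X * z = 0 → φ X = 0

/-- The component of the algebra with the elements `C` that belongs to `z` is a division algebra of
degree and exponent `N`, a prime power; here `D` is the commutant of `C`. -/
structure DivK (C D : Matrix B B K → Prop) (z : Matrix B B K) (N : ℕ) : Prop where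
  endo : D z
  comm : C z
  ne : z * z ≠ 0
  cen : ∀ a, D a → C a → ∃ p : K[X], a * z = aeval z p * z
  div : ∀ X, C X → X * z ≠ 0 → ∀ v, (X * z) *ᵥ v = 0 → z *ᵥ v = 0
  deg : Set.finrank K {Y | ∃ X, C X ∧ Y = X * z} =
    N ^ 2 * Set.finrank K {Y | ∃ p : K[X], Y = aeval z p * z}
  pp : IsPrimePow N
  exp : ∀ k r : ℕ, 0 < k → 0 < r →
    r ≤ N ^ k * Set.finrank K {Y | ∃ p : K[X], Y = aeval z p * z} →
    ∀ φ : Fin k → (Matrix B B K → Matrix (Fin r) (Fin r) K),
    (∀ i, IsRepK C z (φ i)) →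
    (∀ i j, i ≠ j → ∀ X Y, C X → C Y → φ i X * φ j Y = φ j Y * φ i X) →
    (∀ i j, φ i z = φ j z) → N ∣ k

/-- `X` commutes with `L`. -/
def InD (L : Submodule ℂ (Matrix B B ℂ)) (X : Matrix B B K) : Prop :=
  ∀ Y ∈ L, km X * Y = Y * km X

theorem fin1 (L : Submodule ℂ (Matrix B B ℂ)) (z : Matrix B B K) :
    Set.finrank K {Y | ∃ X, InC L X ∧ Y = X * z} =
      finrank K ((CA K L).toSubmodule.map (LinearMap.mulRight K z)) := by
  have h1 : {Y | ∃ X, InC L X ∧ Y = X * z} =
      ((CA K L).toSubmodule.map (LinearMap.mulRight K z) : Set (Matrix B B K)) := by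
    ext Y
    constructor
    · rintro ⟨X, hX, rfl⟩
      exact ⟨X, hX, rfl⟩
    · rintro ⟨X, hX, rfl⟩
      exact ⟨X, hX, rfl⟩
  unfold Set.finrank
  rw [h1, Submodule.span_eq]

theorem fin2 (z : Matrix B B K) :
    Set.finrank K {Y | ∃ p : K[X], Y = aeval z p * z} =
      finrank K ((Algebra.adjoin K {z}).toSubmodule.map (LinearMap.mulRight K z)) := by
  have h1 : {Y | ∃ p : K[X], Y = aeval z p * z} =
      ((Algebra.adjoin K {z}).toSubmodule.map (LinearMap.mulRight K z) :
        Set (Matrix B B K)) := by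
    ext Y
    rw [Algebra.adjoin_singleton_eq_range_aeval]
    constructor
    · rintro ⟨p, rfl⟩
      exact ⟨_, ⟨p, rfl⟩, rfl⟩
    · rintro ⟨_, ⟨p, rfl⟩, rfl⟩
      exact ⟨p, rfl⟩
  unfold Set.finrank
  rw [h1, Submodule.span_eq]

variable [Algebra.IsAlgebraic K ℂ] {L : Submodule ℂ (Matrix B B ℂ)}
  (hgal : ∀ γ : ℂ ≃ₐ[K] ℂ, ∀ X ∈ L, X.map γ ∈ L) (hred : CRed L)
  (hbr : ∀ X ∈ L, ∀ Y ∈ L, X * Y - Y * X ∈ L)

include hgal in
theorem ind {p : Matrix B B ℂ → Prop}
    (h1 : ∀ R ∈ kL (K := K) L, p (km R)) (h0 : p 0) (h2 : ∀ X Y, p X → p Y → p (X + Y))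
    (h3 : ∀ (c : ℂ) X, p X → p (c • X)) : ∀ X ∈ L, p X := by
  intro X hX
  have h4 := span_kL (K := K) hgal hX
  induction h4 using Submodule.span_induction with
  | mem x hx =>
    obtain ⟨R, hR, rfl⟩ := hx
    exact h1 R hR
  | zero => exact h0
  | add x y hx' hy' hx hy =>
    refine h2 x y (hx ?_) (hy ?_)
    · have h5 : ∀ x ∈ Submodule.span ℂ {Y : Matrix B B ℂ | ∃ R ∈ kL (K := K) L, Y = km R},
          x ∈ L := by
        intro x hx
        refine (Submodule.span_le.2 ?_) hx
        rintro _ ⟨R, hR, rfl⟩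
        exact hR
      exact h5 x hx'
    · have h5 : ∀ x ∈ Submodule.span ℂ {Y : Matrix B B ℂ | ∃ R ∈ kL (K := K) L, Y = km R},
          x ∈ L := by
        intro x hx
        refine (Submodule.span_le.2 ?_) hx
        rintro _ ⟨R, hR, rfl⟩
        exact hR
      exact h5 y hy'
  | smul c x hx' hx =>
    refine h3 c x (hx ?_)
    have h5 : ∀ x ∈ Submodule.span ℂ {Y : Matrix B B ℂ | ∃ R ∈ kL (K := K) L, Y = km R},
        x ∈ L := by
      intro x hx
      refine (Submodule.span_le.2 ?_) hx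
      rintro _ ⟨R, hR, rfl⟩
      exact hR
    exact h5 x hx'

include hgal in
/-- An element that commutes with the double commutant commutes with `L`. -/
theorem inD_of {X : Matrix B B K} (h : ∀ Y, InC L Y → X * Y = Y * X) : InD L X := by
  refine ind (K := K) hgal ?_ ?_ ?_ ?_
  · intro R hR
    rw [← km_mul, ← km_mul, h R (InC.of_kL hR)]
  · rw [mul_zero, zero_mul]
  · intro X Y hX hY
    rw [mul_add, add_mul, hX, hY]
  · intro c X hX
    rw [Matrix.mul_smul, Matrix.smul_mul, hX]

include hgal hred hbr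

/-- **The rational part.** -/
theorem rat_part {z : Matrix B B K} {N : ℕ} (h : DivK (InC L) (InD L) z N)
    {X Y : Matrix B B K} (hX : InC L X) (hY : InC L Y) :
    ∃ W ∈ Submodule.span K {T | ∃ (q : K[X]) (s : Matrix B B K),
      s ∈ kL L ∧ T = aeval z q * s}, (X * Y - Y * X) * z = W * z := by
  let T : Matrix B B K ≃ₐ[K] Module.End K (B → K) := Matrix.toLinAlgEquiv'
  have hT : ∀ Y v, T Y v = Y *ᵥ v := fun Y v => rfl
  have hzc : ∀ X, InC L X → X * z = z * X := by
    intro X hX
    apply km_inj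
    rw [km_mul, km_mul]
    exact (hX (km z) h.endo).symm
  have hmap : ∀ (S : Subalgebra K (Matrix B B K)),
      (S.map T.toAlgHom).toSubmodule.map (LinearMap.mulRight K (T z)) =
        (S.toSubmodule.map (LinearMap.mulRight K z)).map T.toLinearMap := by
    intro S
    ext Y
    constructor
    · rintro ⟨_, ⟨X, hX, rfl⟩, rfl⟩
      exact ⟨X * z, ⟨X, hX, rfl⟩, map_mul T X z⟩
    · rintro ⟨_, ⟨X, hX, rfl⟩, rfl⟩
      exact ⟨T X, ⟨X, hX, rfl⟩, (map_mul T X z).symm⟩
  have hfr : ∀ U : Submodule K (Matrix B B K),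
      finrank K (U.map T.toLinearMap) = finrank K U := fun U =>
    (Submodule.equivMapOfInjective _ T.injective _).finrank_eq.symm
  have hadj : Algebra.adjoin K {T z} = (Algebra.adjoin K {z}).map T.toAlgHom := by
    rw [AlgHom.map_adjoin_singleton]
    rfl
  have hd1 : finrank K (((CA K L).map T.toAlgHom).toSubmodule.map (LinearMap.mulRight K (T z))) =
      Set.finrank K {Y | ∃ X, InC L X ∧ Y = X * z} := by
    rw [hmap, hfr, fin1]
  have hd2 : finrank K ((Algebra.adjoin K {T z}).toSubmodule.map (LinearMap.mulRight K (T z))) =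
      Set.finrank K {Y | ∃ p : K[X], Y = aeval z p * z} := by
    rw [hadj, hmap, hfr, fin2]
  have haev : ∀ p : K[X], T (aeval z p) = aeval (T z) p := fun p =>
    (Polynomial.aeval_algHom_apply T z p).symm
  obtain ⟨W, hW, hWe⟩ := DP.rat_part_q ((CA K L).map T.toAlgHom) (T z) ⟨z, h.comm, rfl⟩
    (by
      rintro _ ⟨X, hX, rfl⟩
      change T X * T z = T z * T X
      rw [← map_mul, ← map_mul, hzc X hX])
    (by
      rw [← map_mul]
      intro h0
      exact h.ne (T.injective (by rw [h0, map_zero])))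
    (by
      rintro _ ⟨X, hX, rfl⟩ hne v hv
      change T X (T z v) = 0 at hv
      change T X * T z ≠ 0 at hne
      rw [hT, hT, mulVec_mulVec] at hv
      exact h.div X hX (fun h0 => hne (by rw [← map_mul, h0, map_zero])) v hv)
    h.pp
    (by rw [hd1, hd2, h.deg])
    (by
      rintro _ ⟨X, hX, rfl⟩ hc
      have h1 : ∀ Y, InC L Y → (X * z) * Y = Y * (X * z) := by
        intro Y hY
        have h2 := hc (T Y) ⟨Y, hY, rfl⟩
        change (T X * T Y - T Y * T X) * T z = 0 at h2
        rw [← map_mul, ← map_mul, ← map_sub, ← map_mul] at h2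
        have h3 : (X * Y - Y * X) * z = 0 := T.injective (by rw [h2, map_zero])
        rw [sub_mul, sub_eq_zero] at h3
        rw [mul_assoc, ← hzc Y hY, ← mul_assoc, h3, mul_assoc]
      obtain ⟨p, hp⟩ := h.cen (X * z) (inD_of hgal h1) (InC.mul hX h.comm)
      refine ⟨p, ?_⟩
      change T X * T z * T z = _
      rw [← haev, ← map_mul, ← map_mul, ← map_mul, hp])
    (by
      intro k r hk hr hle φ h1 h2 h3
      rw [hd2] at hle
      refine h.exp k r hk hr hle (fun i X => φ i (T X)) (fun i => ⟨fun X Y hX hY => ?_,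
        fun X Y hX hY => ?_, ?_, fun X hX h0 => ?_⟩) (fun i j hij X Y hX hY => ?_) h3
      · rw [map_add]
        exact (h1 i).add _ ⟨X, hX, rfl⟩ _ ⟨Y, hY, rfl⟩
      · rw [map_mul]
        exact (h1 i).mul _ ⟨X, hX, rfl⟩ _ ⟨Y, hY, rfl⟩
      · rw [map_one]
        exact (h1 i).one
      · refine (h1 i).zero _ ⟨X, hX, rfl⟩ ?_
        change T X * T z = 0
        rw [← map_mul, h0, map_zero]
      · exact h2 i j hij _ ⟨X, hX, rfl⟩ _ ⟨Y, hY, rfl⟩)
    ((kL L).map T.toLinearMap)
    (by
      rintro _ ⟨X, hX, rfl⟩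
      exact ⟨X, InC.of_kL hX, rfl⟩)
    (by
      rintro _ ⟨X, hX, rfl⟩ _ ⟨Y, hY, rfl⟩
      refine ⟨X * Y - Y * X, kL_br hbr hX hY, ?_⟩
      change T (X * Y - Y * X) = T X * T Y - T Y * T X
      rw [map_sub, map_mul, map_mul])
    (by
      rintro _ ⟨X, hX, rfl⟩
      have h1 := dcomm (K := K) hgal hred hX
      have h2 : T X ∈ (Algebra.adjoin K (kL (K := K) L : Set _)).map T.toAlgHom := ⟨X, h1, rfl⟩
      rw [AlgHom.map_adjoin] at h2
      exact h2)
    (X := T X) (Y := T Y) ⟨X, hX, rfl⟩ ⟨Y, hY, rfl⟩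
  refine ⟨T.symm W, ?_, ?_⟩
  · clear hWe
    induction hW using Submodule.span_induction with
    | mem x hx =>
      obtain ⟨q, _, ⟨s, hs, rfl⟩, rfl⟩ := hx
      refine Submodule.subset_span ⟨q, s, hs, ?_⟩
      apply T.injective
      rw [AlgEquiv.apply_symm_apply, map_mul, haev]
      rfl
    | zero => rw [map_zero]; exact Submodule.zero_mem _
    | add x y _ _ h1 h2 => rw [map_add]; exact Submodule.add_mem _ h1 h2
    | smul a x _ h1 => rw [map_smul]; exact Submodule.smul_mem _ a h1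
  · apply T.injective
    rw [map_mul, map_mul, map_sub, map_mul, map_mul, AlgEquiv.apply_symm_apply]
    exact hWe

omit hgal hred hbr in
/-- Polynomials in `z` on a submodule on which `z` is a scalar. -/
theorem aev_W {W : Submodule ℂ (B → ℂ)} {z : Matrix B B K} {c : ℂ}
    (hc : ∀ w ∈ W, km z *ᵥ w = c • w) (q : K[X]) :
    ∀ w ∈ W, km (aeval z q) *ᵥ w = (aeval c q) • w := by
  induction q using Polynomial.induction_on with
  | C r =>
    intro w _
    rw [Polynomial.aeval_C, Polynomial.aeval_C, Algebra.algebraMap_eq_smul_one, km_smul, km_one,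
      smul_mulVec, one_mulVec]
  | add p q hp hq =>
    intro w hw
    rw [map_add, map_add, km_add, add_mulVec, hp w hw, hq w hw, add_smul]
  | monomial n r hn =>
    intro w hw
    rw [pow_succ, ← mul_assoc, map_mul _ (Polynomial.C r * Polynomial.X ^ n) Polynomial.X,
      map_mul _ (Polynomial.C r * Polynomial.X ^ n) Polynomial.X, Polynomial.aeval_X,
      Polynomial.aeval_X, km_mul, ← mulVec_mulVec, hc w hw, mulVec_smul, hn w hw, smul_smul,
      mul_comm c]

/-- The rational part at an irreducible submodule. -/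
theorem rat_W {z : Matrix B B K} {N : ℕ} (h : DivK (InC L) (InD L) z N)
    {W : Submodule ℂ (B → ℂ)} {c : ℂ} (hc0 : c ≠ 0) (hc : ∀ w ∈ W, km z *ᵥ w = c • w)
    {X Y : Matrix B B K} (hX : InC L X) (hY : InC L Y) :
    ∃ U ∈ L, ∀ w ∈ W, (km X * km Y - km Y * km X) *ᵥ w = U *ᵥ w := by
  obtain ⟨V, hV, hVe⟩ := rat_part hgal hred hbr h hX hY
  have h1 : ∀ w ∈ W, (km X * km Y - km Y * km X) *ᵥ w = km V *ᵥ w := by
    intro w hw
    have h2 := congrArg (fun Y => km Y *ᵥ w) hVe
    simp only [km_mul, km_sub] at h2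
    rw [← mulVec_mulVec, ← mulVec_mulVec, hc w hw, mulVec_smul, mulVec_smul] at h2
    exact smul_right_injective _ hc0 h2
  have h3 : ∃ U ∈ L, ∀ w ∈ W, km V *ᵥ w = U *ᵥ w := by
    clear hVe h1
    induction hV using Submodule.span_induction with
    | mem x hx =>
      obtain ⟨q, s, hs, rfl⟩ := hx
      refine ⟨(aeval c q) • km s, L.smul_mem _ hs, fun w hw => ?_⟩
      have h4 : km (aeval z q) * km s = km s * km (aeval z q) := by
        have h5 : InD L (aeval z q) := by
          induction q using Polynomial.induction_on with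
          | C r =>
            intro Y _
            rw [Polynomial.aeval_C, Algebra.algebraMap_eq_smul_one, km_smul, km_one, smul_mul_assoc,
              mul_smul_comm, one_mul, mul_one]
          | add p q hp hq =>
            intro Y hY
            rw [map_add, km_add, add_mul, mul_add, hp Y hY, hq Y hY]
          | monomial n r hn =>
            intro Y hY
            rw [pow_succ, ← mul_assoc, map_mul, Polynomial.aeval_X, km_mul, mul_assoc,
              h.endo Y hY, ← mul_assoc, hn Y hY, mul_assoc]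
        exact h5 _ hs
      rw [km_mul, h4, ← mulVec_mulVec, aev_W hc q w hw, mulVec_smul, smul_mulVec]
    | zero =>
      refine ⟨0, L.zero_mem, fun w _ => ?_⟩
      rw [km_zero]
    | add x y _ _ h1 h2 =>
      obtain ⟨U1, hU1, e1⟩ := h1
      obtain ⟨U2, hU2, e2⟩ := h2
      refine ⟨U1 + U2, L.add_mem hU1 hU2, fun w hw => ?_⟩
      rw [km_add, add_mulVec, add_mulVec, e1 w hw, e2 w hw]
    | smul a x _ h1 =>
      obtain ⟨U1, hU1, e1⟩ := h1
      refine ⟨algebraMap K ℂ a • U1, L.smul_mem _ hU1, fun w hw => ?_⟩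
      rw [km_smul, smul_mulVec, smul_mulVec, e1 w hw]
  obtain ⟨U, hU, hUe⟩ := h3
  exact ⟨U, hU, fun w hw => by rw [h1 w hw, hUe w hw]⟩

omit hgal hred hbr [Algebra.IsAlgebraic K ℂ] in
theorem spanC_mul {x y : Matrix B B ℂ}
    (hx : x ∈ Submodule.span ℂ {x | ∃ X : Matrix B B K, InC L X ∧ x = km X})
    (hy : y ∈ Submodule.span ℂ {x | ∃ X : Matrix B B K, InC L X ∧ x = km X}) :
    x * y ∈ Submodule.span ℂ {x | ∃ X : Matrix B B K, InC L X ∧ x = km X} := by
  induction hx using Submodule.span_induction with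
  | mem x hx =>
    obtain ⟨X, hX, rfl⟩ := hx
    induction hy using Submodule.span_induction with
    | mem y hy =>
      obtain ⟨Y, hY, rfl⟩ := hy
      exact Submodule.subset_span ⟨X * Y, InC.mul hX hY, (km_mul X Y).symm⟩
    | zero => rw [mul_zero]; exact Submodule.zero_mem _
    | add a b _ _ ha hb => rw [mul_add]; exact Submodule.add_mem _ ha hb
    | smul c a _ ha => rw [Matrix.mul_smul]; exact Submodule.smul_mem _ c ha
  | zero => rw [zero_mul]; exact Submodule.zero_mem _
  | add a b _ _ ha hb => rw [add_mul]; exact Submodule.add_mem _ ha hb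
  | smul c a _ ha => rw [Matrix.smul_mul]; exact Submodule.smul_mem _ c ha

/-- Commutators on an irreducible submodule. -/
theorem comm_W {z : Matrix B B K} {N : ℕ} (h : DivK (InC L) (InD L) z N)
    {W : Submodule ℂ (B → ℂ)} {c : ℂ} (hc0 : c ≠ 0) (hc : ∀ w ∈ W, km z *ᵥ w = c • w)
    {x y : Matrix B B ℂ}
    (hx : x ∈ Submodule.span ℂ {x | ∃ X : Matrix B B K, InC L X ∧ x = km X})
    (hy : y ∈ Submodule.span ℂ {x | ∃ X : Matrix B B K, InC L X ∧ x = km X}) :
    ∃ U ∈ L, ∀ w ∈ W, (x * y - y * x) *ᵥ w = U *ᵥ w := by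
  induction hx using Submodule.span_induction with
  | mem x hx =>
    obtain ⟨X, hX, rfl⟩ := hx
    induction hy using Submodule.span_induction with
    | mem y hy =>
      obtain ⟨Y, hY, rfl⟩ := hy
      exact rat_W hgal hred hbr h hc0 hc hX hY
    | zero =>
      refine ⟨0, L.zero_mem, fun w _ => ?_⟩
      rw [mul_zero, zero_mul, sub_zero]
    | add a b _ _ ha hb =>
      obtain ⟨U1, hU1, e1⟩ := ha
      obtain ⟨U2, hU2, e2⟩ := hb
      refine ⟨U1 + U2, L.add_mem hU1 hU2, fun w hw => ?_⟩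
      have h3 : km X * (a + b) - (a + b) * km X = (km X * a - a * km X) + (km X * b - b * km X) := by
        noncomm_ring
      rw [h3, add_mulVec, add_mulVec, e1 w hw, e2 w hw]
    | smul c a _ ha =>
      obtain ⟨U1, hU1, e1⟩ := ha
      refine ⟨c • U1, L.smul_mem _ hU1, fun w hw => ?_⟩
      rw [Matrix.mul_smul, Matrix.smul_mul, ← smul_sub, smul_mulVec, smul_mulVec, e1 w hw]
  | zero =>
    refine ⟨0, L.zero_mem, fun w _ => ?_⟩
    rw [mul_zero, zero_mul, sub_zero]
  | add a b _ _ ha hb =>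
    obtain ⟨U1, hU1, e1⟩ := ha
    obtain ⟨U2, hU2, e2⟩ := hb
    refine ⟨U1 + U2, L.add_mem hU1 hU2, fun w hw => ?_⟩
    have h3 : (a + b) * y - y * (a + b) = (a * y - y * a) + (b * y - y * b) := by
      noncomm_ring
    rw [h3, add_mulVec, add_mulVec, e1 w hw, e2 w hw]
  | smul c a _ ha =>
    obtain ⟨U1, hU1, e1⟩ := ha
    refine ⟨c • U1, L.smul_mem _ hU1, fun w hw => ?_⟩
    rw [Matrix.mul_smul, Matrix.smul_mul, ← smul_sub, smul_mulVec, smul_mulVec, e1 w hw]

omit hred hbr in
theorem adjoin_le {x : Matrix B B ℂ} (hx : x ∈ Algebra.adjoin ℂ (L : Set (Matrix B B ℂ))) :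
    x ∈ Submodule.span ℂ {x | ∃ X : Matrix B B K, InC L X ∧ x = km X} := by
  induction hx using Algebra.adjoin_induction with
  | mem x hx =>
    refine Submodule.span_mono ?_ (span_kL (K := K) hgal hx)
    rintro _ ⟨R, hR, rfl⟩
    exact ⟨R, InC.of_kL hR, rfl⟩
  | algebraMap r =>
    rw [Algebra.algebraMap_eq_smul_one, ← km_one (K := K)]
    refine Submodule.smul_mem _ r (Submodule.subset_span ⟨1, fun P _ => ?_, rfl⟩)
    rw [km_one, one_mul, mul_one]
  | add a b _ _ ha hb => exact Submodule.add_mem _ ha hb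
  | mul a b _ _ ha hb => exact spanC_mul ha hb

omit hred hbr in
/-- **Burnside's theorem** on an irreducible submodule. -/
theorem burnside_W {W : Submodule ℂ (B → ℂ)} (hW : IrS L W) (f : Module.End ℂ W) :
    ∃ x ∈ Submodule.span ℂ {x | ∃ X : Matrix B B K, InC L X ∧ x = km X},
      ∀ w : W, ((f w : W) : B → ℂ) = x *ᵥ (w : B → ℂ) := by
  let S : Subalgebra ℂ (Module.End ℂ W) :=
    { carrier := {T | ∃ x ∈ Algebra.adjoin ℂ (L : Set (Matrix B B ℂ)),
        ∀ w : W, ((T w : W) : B → ℂ) = x *ᵥ (w : B → ℂ)}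
      mul_mem' := by
        rintro a b ⟨x, hx, hxe⟩ ⟨y, hy, hye⟩
        refine ⟨x * y, Subalgebra.mul_mem _ hx hy, fun w => ?_⟩
        rw [← mulVec_mulVec, ← hye, ← hxe]
        rfl
      add_mem' := by
        rintro a b ⟨x, hx, hxe⟩ ⟨y, hy, hye⟩
        refine ⟨x + y, Subalgebra.add_mem _ hx hy, fun w => ?_⟩
        rw [add_mulVec, ← hye, ← hxe]
        rfl
      algebraMap_mem' := by
        intro r
        refine ⟨algebraMap ℂ _ r, Subalgebra.algebraMap_mem _ r, fun w => ?_⟩
        rw [Algebra.algebraMap_eq_smul_one (A := Matrix _ _ ℂ), smul_mulVec, one_mulVec]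
        rfl }
  have hnt : Nontrivial W := by
    by_contra hcon
    rw [not_nontrivial_iff_subsingleton] at hcon
    exact hW.1 ((Submodule.subsingleton_iff_eq_bot).1 hcon)
  obtain ⟨x, hx, hxe⟩ : f ∈ S := by
    refine Pool.Agent.N768.BG.burnside S (fun U hU => ?_) f
    rcases hW.2.2 (U.map W.subtype) (by
      rintro _ ⟨u, _, rfl⟩
      exact u.2) (by
      rintro X hX _ ⟨u, hu, rfl⟩
      let T : Module.End ℂ W :=
        { toFun := fun v => ⟨X *ᵥ (v : B → ℂ), hW.2.1 X hX v v.2⟩
          map_add' := fun u v => Subtype.ext (by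
            change X *ᵥ ((u : B → ℂ) + v) = _
            rw [mulVec_add]
            rfl)
          map_smul' := fun c v => Subtype.ext (by
            change X *ᵥ (c • (v : B → ℂ)) = _
            rw [mulVec_smul]
            rfl) }
      exact ⟨T u, hU T ⟨X, Algebra.subset_adjoin hX, fun w => rfl⟩ u hu, rfl⟩) with h | h
    · left
      rw [Submodule.eq_bot_iff] at h ⊢
      intro u hu
      exact Subtype.ext (h _ ⟨u, hu, rfl⟩)
    · right
      rw [eq_top_iff]
      intro u _
      have h1 : (u : B → ℂ) ∈ U.map W.subtype := by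
        rw [h]
        exact u.2
      obtain ⟨u', hu', hu''⟩ := h1
      have : u' = u := Subtype.ext hu''
      rwa [← this]
  exact ⟨x, adjoin_le hgal hx, hxe⟩

/-- **All commutators of endomorphisms** of an irreducible submodule on which `z` is not zero are
given by elements of `L`. -/
theorem full_W {z : Matrix B B K} {N : ℕ} (h : DivK (InC L) (InD L) z N)
    {W : Submodule ℂ (B → ℂ)} (hW : IrS L W) {c : ℂ} (hc0 : c ≠ 0)
    (hc : ∀ w ∈ W, km z *ᵥ w = c • w) (f f' : Module.End ℂ W) :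
    ∃ U ∈ L, ∀ w : W, (((f * f' - f' * f) w : W) : B → ℂ) = U *ᵥ (w : B → ℂ) := by
  obtain ⟨x, hx, hxe⟩ := burnside_W (K := K) hgal hW f
  obtain ⟨y, hy, hye⟩ := burnside_W (K := K) hgal hW f'
  obtain ⟨U, hU, hUe⟩ := comm_W hgal hred hbr h hc0 hc hx hy
  refine ⟨U, hU, fun w => ?_⟩
  rw [← hUe w w.2, sub_mulVec, ← mulVec_mulVec, ← mulVec_mulVec, ← hye, ← hxe, ← hxe, ← hye]
  rfl

end

end Pool.Agent.H943.LA
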