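import Mathlib
import Pool.Agent.H943.LA.Div
import Pool.Graph.R_pool_sql_team_seeded_1acbe0a2.Y91.L.Tens

/-!
# Elements of rank one, if the double commutant of a simple factor is a product of division algebras
# of prime power degree over `K`
-/

set_option autoImplicit false
set_option linter.unusedSectionVars false

namespace Pool.Agent.H943.LA

open Module Matrix Polynomial Pool.Agent
open Pool.Agent.W437.HC Pool.Agent.W437.HD Pool.Agent.W548.Odd Pool.Agent.W522.U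
open Pool.Agent.H204R3.SP Pool.Agent.H204R3.GP Pool.Agent.Y90 Pool.Agent.Y224.TS
open Pool.Agent.W437.HP (cK cK_mul cK_one)
open Pool.Agent.Y91.L (HasRk)

noncomputable section

variable {K : Type} [Field K] [CharZero K] [Algebra K ℂ]

section gen

variable {B : Type} [Fintype B] [DecidableEq B] {L : Submodule ℂ (Matrix B B ℂ)}

theorem stab_adjoin {W : Submodule ℂ (B → ℂ)} (hW : Stab L W) {Y : Matrix B B ℂ}
    (hY : Y ∈ Algebra.adjoin ℂ (L : Set (Matrix B B ℂ))) : ∀ w ∈ W, Y *ᵥ w ∈ W := by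
  induction hY using Algebra.adjoin_induction with
  | mem Y hY => exact hW Y hY
  | algebraMap c =>
    intro w hw
    rw [Algebra.algebraMap_eq_smul_one, smul_mulVec, one_mulVec]
    exact W.smul_mem c hw
  | add a b _ _ ha hb =>
    intro w hw
    rw [add_mulVec]
    exact W.add_mem (ha w hw) (hb w hw)
  | mul a b _ _ ha hb =>
    intro w hw
    rw [← mulVec_mulVec]
    exact ha _ (hb w hw)

/-- Central elements act by scalars on irreducible submodules. -/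
theorem scalar_W (hred : CRed L) {W : Submodule ℂ (B → ℂ)} (hW : IrS L W) {z : Matrix B B K}
    (hz : InC L z) (hz' : InD L z) : ∃ c : ℂ, ∀ w ∈ W, km z *ᵥ w = c • w := by
  have h1 : ∀ w ∈ W, km z *ᵥ w ∈ W := stab_adjoin hW.2.1 (dcommC hred hz)
  have hnt : Nontrivial W := by
    by_contra hcon
    rw [not_nontrivial_iff_subsingleton] at hcon
    exact hW.1 ((Submodule.subsingleton_iff_eq_bot).1 hcon)
  let f : Module.End ℂ W := (mulVecLin (km z)).restrict h1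
  obtain ⟨c, hc⟩ := Module.End.exists_eigenvalue f
  obtain ⟨w0, hw0⟩ := hc.exists_hasEigenvector
  have hs : Stab L (W ⊓ LinearMap.ker (mulVecLin (km z) - c • LinearMap.id)) := by
    rintro X hX w ⟨hw, hw'⟩
    refine ⟨hW.2.1 X hX w hw, ?_⟩
    have e1 : km z *ᵥ w = c • w := by
      have e2 := hw'
      rw [SetLike.mem_coe, LinearMap.mem_ker, LinearMap.sub_apply, sub_eq_zero] at e2
      exact e2
    rw [SetLike.mem_coe, LinearMap.mem_ker, LinearMap.sub_apply, sub_eq_zero]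
    change km z *ᵥ (X *ᵥ w) = c • (X *ᵥ w)
    rw [mulVec_mulVec, hz' X hX, ← mulVec_mulVec, e1, mulVec_smul]
  refine ⟨c, fun w hw => ?_⟩
  rcases hW.2.2 _ inf_le_left hs with h2 | h2
  · exfalso
    apply hw0.2
    apply Subtype.ext
    have e3 : (w0 : B → ℂ) ∈ W ⊓ LinearMap.ker (mulVecLin (km z) - c • LinearMap.id) := by
      refine ⟨w0.2, ?_⟩
      rw [SetLike.mem_coe, LinearMap.mem_ker, LinearMap.sub_apply, sub_eq_zero]
      exact congrArg Subtype.val hw0.apply_eq_smul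
    rw [h2, Submodule.mem_bot] at e3
    exact e3
  · have e3 : w ∈ W ⊓ LinearMap.ker (mulVecLin (km z) - c • LinearMap.id) := by
      rw [h2]
      exact hw
    have e4 := e3.2
    rw [SetLike.mem_coe, LinearMap.mem_ker, LinearMap.sub_apply, sub_eq_zero] at e4
    exact e4

/-- Some element of a family of central elements the ranges of which span does not vanish on a
given irreducible submodule. -/
theorem exists_ne_W (hred : CRed L) {W : Submodule ℂ (B → ℂ)} (hW : IrS L W)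
    {P : Matrix B B K → Prop} (hP : ∀ z, P z → InC L z)
    (hspan : ∀ v : B → K, v ∈ Submodule.span K {v | ∃ z w, P z ∧ v = z *ᵥ w}) :
    ∃ z, P z ∧ ∃ w ∈ W, km z *ᵥ w ≠ 0 := by
  by_contra hcon
  push Not at hcon
  obtain ⟨π, h1, h2, h3⟩ := hred W hW.2.1
  have hπ : ∀ z, P z → ∀ v, π (km z *ᵥ v) = 0 := by
    intro z hz v
    have h4 := hP z hz (LinearMap.toMatrix' π) (fun Y hY => (comm_mat π Y).1 (h1 Y hY))
    have h5 := (comm_mat π (km z)).2 h4
    rw [h5]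
    exact hcon z hz _ (h2 v)
  have hrat : ∀ v : B → K, π (fun i => algebraMap K ℂ (v i)) = 0 := by
    intro v
    have h4 := hspan v
    induction h4 using Submodule.span_induction with
    | mem v hv =>
      obtain ⟨z, w, hz, rfl⟩ := hv
      have e1 : (fun i => algebraMap K ℂ ((z *ᵥ w) i)) =
          km z *ᵥ (fun i => algebraMap K ℂ (w i)) := by
        funext i
        simp [km, mulVec, dotProduct]
      rw [e1]
      exact hπ z hz _
    | zero =>
      have e1 : (fun i => algebraMap K ℂ ((0 : B → K) i)) = 0 := by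
        funext i
        simp
      rw [e1, map_zero]
    | add x y _ _ hx hy =>
      have e1 : (fun i => algebraMap K ℂ ((x + y) i)) =
          (fun i => algebraMap K ℂ (x i)) + fun i => algebraMap K ℂ (y i) := by
        funext i
        simp
      rw [e1, map_add, hx, hy, add_zero]
    | smul c x _ hx =>
      have e1 : (fun i => algebraMap K ℂ ((c • x) i)) =
          algebraMap K ℂ c • fun i => algebraMap K ℂ (x i) := by
        funext i
        simp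
      rw [e1, map_smul, hx, smul_zero]
  have h0 : π = 0 := by
    refine (Pi.basisFun ℂ B).ext fun i => ?_
    have e1 := hrat (Pi.single i 1)
    have e2 : (fun j => algebraMap K ℂ ((Pi.single i 1 : B → K) j)) = Pi.basisFun ℂ B i := by
      funext j
      rw [Pi.basisFun_apply]
      by_cases hij : j = i
      · subst hij; simp
      · simp [Pi.single_eq_of_ne hij]
    rw [← e2, e1]
    rfl
  apply hW.1
  rw [eq_bot_iff]
  intro w hw
  have h4 := h3 w hw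
  rw [h0] at h4
  rw [Submodule.mem_bot, ← h4]
  rfl

end gen

variable {G a : ℕ} {Z : Matrix (Fin G) (Fin G) ℂ} {Z' : Matrix (Fin a) (Fin a) ℂ}
  {E : Matrix (Fin G ⊕ Fin G) (Fin a ⊕ Fin a) ℚ} {F : Matrix (Fin a ⊕ Fin a) (Fin G ⊕ Fin G) ℚ}
  {S : Set (Matrix (Fin G ⊕ Fin G) (Fin G ⊕ Fin G) ℂ)}

/-- the matrix over `K` of a rational matrix -/
def kq (K : Type) [Field K] [CharZero K] {B : Type} (Q : Matrix B B ℚ) : Matrix B B K :=
  Q.map (algebraMap ℚ K)

theorem km_kq {B : Type} (Q : Matrix B B ℚ) : km (kq K Q) = qm Q := by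
  ext i j
  simp [km, kq, qm]

/-- `X` commutes with the endomorphisms. -/
def CmK (Z' : Matrix (Fin a) (Fin a) ℂ) (X : Matrix (Fin a ⊕ Fin a) (Fin a ⊕ Fin a) K) : Prop :=
  ∀ Q : Matrix (Fin a ⊕ Fin a) (Fin a ⊕ Fin a) ℚ, (∀ Y ∈ LZ Z', qm Q * Y = Y * qm Q) →
    X * kq K Q = kq K Q * X

/-- `X` is a combination of endomorphisms. -/
def EnK (Z' : Matrix (Fin a) (Fin a) ℂ) (X : Matrix (Fin a ⊕ Fin a) (Fin a ⊕ Fin a) K) : Prop :=
  ∀ Y ∈ LZ Z', km X * Y = Y * km X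

/-- The commutant of the endomorphisms of the simple factor is over `K` a product of division
algebras of prime power degree. -/
def DivF (K : Type) [Field K] [CharZero K] [Algebra K ℂ] (Z' : Matrix (Fin a) (Fin a) ℂ) : Prop :=
  ∀ v : Fin a ⊕ Fin a → K, v ∈ Submodule.span K
    {v | ∃ z w, (∃ N, DivK (K := K) (CmK Z') (EnK Z') z N) ∧ v = z *ᵥ w}

/-- the compression -/
def cpr (E : Matrix (Fin G ⊕ Fin G) (Fin a ⊕ Fin a) ℚ) (F : Matrix (Fin a ⊕ Fin a) (Fin G ⊕ Fin G) ℚ) :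
    Matrix (Fin G ⊕ Fin G) (Fin G ⊕ Fin G) ℂ →ₗ[ℂ] Matrix (Fin a ⊕ Fin a) (Fin a ⊕ Fin a) ℂ :=
  { toFun := fun X => cK ℂ F * X * cK ℂ E
    map_add' := fun X Y => by rw [Matrix.mul_add, Matrix.add_mul]
    map_smul' := fun c X => by rw [Matrix.mul_smul, Matrix.smul_mul, RingHom.id_apply] }

theorem cpr_apply (X : Matrix (Fin G ⊕ Fin G) (Fin G ⊕ Fin G) ℂ) :
    cpr E F X = cK ℂ F * X * cK ℂ E := rfl

section cmp

variable (h : TD Z S) (hf : Fac Z Z' E F)
include h hf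

theorem efx {X : Matrix (Fin G ⊕ Fin G) (Fin G ⊕ Fin G) ℂ} (hX : X ∈ Y224.TS.LT S) :
    cK ℂ E * cK ℂ F * X = X * (cK ℂ E * cK ℂ F) := by
  refine (h.comm' _).2 ?_ X hX
  intro X hX
  obtain ⟨-, h2, h3⟩ := hf.comp hX
  calc cK ℂ E * cK ℂ F * X = cK ℂ E * (cK ℂ F * X) := by rw [Matrix.mul_assoc]
    _ = cK ℂ E * (cK ℂ F * X * cK ℂ E * cK ℂ F) := by rw [← h3]
    _ = cK ℂ E * (cK ℂ F * X * cK ℂ E) * cK ℂ F := by simp only [Matrix.mul_assoc]
    _ = X * cK ℂ E * cK ℂ F := by rw [← h2]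
    _ = _ := by rw [Matrix.mul_assoc]

theorem xe {X : Matrix (Fin G ⊕ Fin G) (Fin G ⊕ Fin G) ℂ} (hX : X ∈ Y224.TS.LT S) :
    cK ℂ E * cpr E F X = X * cK ℂ E := by
  rw [cpr_apply]
  calc cK ℂ E * (cK ℂ F * X * cK ℂ E) = cK ℂ E * cK ℂ F * X * cK ℂ E := by
        simp only [Matrix.mul_assoc]
    _ = X * (cK ℂ E * cK ℂ F) * cK ℂ E := by rw [efx h hf hX]
    _ = X * (cK ℂ E * (cK ℂ F * cK ℂ E)) := by simp only [Matrix.mul_assoc]
    _ = _ := by rw [hf.fe', Matrix.mul_one]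

theorem fx {X : Matrix (Fin G ⊕ Fin G) (Fin G ⊕ Fin G) ℂ} (hX : X ∈ Y224.TS.LT S) :
    cpr E F X * cK ℂ F = cK ℂ F * X := by
  rw [cpr_apply]
  calc cK ℂ F * X * cK ℂ E * cK ℂ F = cK ℂ F * (X * (cK ℂ E * cK ℂ F)) := by
        simp only [Matrix.mul_assoc]
    _ = cK ℂ F * (cK ℂ E * cK ℂ F * X) := by rw [efx h hf hX]
    _ = (cK ℂ F * cK ℂ E) * (cK ℂ F * X) := by simp only [Matrix.mul_assoc]
    _ = _ := by rw [hf.fe', Matrix.one_mul]

theorem cpr_mul {X Y : Matrix (Fin G ⊕ Fin G) (Fin G ⊕ Fin G) ℂ} (hX : X ∈ Y224.TS.LT S) :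
    cpr E F X * cpr E F Y = cpr E F (X * Y) := by
  rw [cpr_apply (E := E) (F := F) Y, cpr_apply (E := E) (F := F) (X * Y)]
  calc cpr E F X * (cK ℂ F * Y * cK ℂ E) = (cpr E F X * cK ℂ F) * Y * cK ℂ E := by
        simp only [Matrix.mul_assoc]
    _ = _ := by rw [fx h hf hX]; simp only [Matrix.mul_assoc]

theorem cpr_br : ∀ X ∈ (Y224.TS.LT S).map (cpr E F), ∀ Y ∈ (Y224.TS.LT S).map (cpr E F),
    X * Y - Y * X ∈ (Y224.TS.LT S).map (cpr E F) := by
  rintro _ ⟨X, hX, rfl⟩ _ ⟨Y, hY, rfl⟩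
  refine ⟨X * Y - Y * X, LT_br hX hY, ?_⟩
  rw [map_sub, cpr_mul h hf hX, cpr_mul h hf hY]

theorem act_T {X : Matrix (Fin G ⊕ Fin G) (Fin G ⊕ Fin G) ℂ} (hX : X ∈ Y224.TS.LT S)
    (v : Fin G ⊕ Fin G → ℂ) : ml F (X *ᵥ v) = cpr E F X *ᵥ ml F v := by
  rw [ml_apply, ml_apply, mulVec_mulVec, mulVec_mulVec, fx h hf hX]

theorem cpr_red : CRed ((Y224.TS.LT S).map (cpr E F)) := by
  intro M hM
  have hst : Stab (Y224.TS.LT S) (M.map (ml E)) := by
    rintro X hX _ ⟨m, hm, rfl⟩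
    refine ⟨cpr E F X *ᵥ m, hM _ ⟨X, hX, rfl⟩ m hm, ?_⟩
    rw [ml_apply, ml_apply, mulVec_mulVec, mulVec_mulVec, xe h hf hX]
  obtain ⟨π, h1, h2, h3⟩ := h.cr _ hst
  have hFE : ∀ v, ml F (ml E v) = v := fun v => by
    rw [ml_apply, ml_apply, mulVec_mulVec, hf.fe', one_mulVec]
  refine ⟨(ml F).comp (π.comp (ml E)), ?_, fun w => ?_, fun w hw => ?_⟩
  · rintro _ ⟨X, hX, rfl⟩ w
    change ml F (π (ml E (cpr E F X *ᵥ w))) = cpr E F X *ᵥ ml F (π (ml E w))
    have e1 : ml E (cpr E F X *ᵥ w) = X *ᵥ ml E w := by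
      rw [ml_apply, ml_apply, mulVec_mulVec, mulVec_mulVec, xe h hf hX]
    rw [e1, h1 X hX, act_T h hf hX]
  · obtain ⟨m, hm, hme⟩ := h2 (ml E w)
    change ml F (π (ml E w)) ∈ M
    rw [← hme, hFE]
    exact hm
  · change ml F (π (ml E w)) = w
    rw [h3 _ ⟨w, hw, rfl⟩, hFE]

/-- The commutant of the compression. -/
theorem cpr_comm (P : Matrix (Fin a ⊕ Fin a) (Fin a ⊕ Fin a) ℂ) :
    (∀ Y ∈ (Y224.TS.LT S).map (cpr E F), P * Y = Y * P) ↔ ∀ Y ∈ LZ Z', P * Y = Y * P := by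
  constructor
  · intro hP
    have h1 : ∀ X ∈ Y224.TS.LT S, (cK ℂ E * P * cK ℂ F) * X = X * (cK ℂ E * P * cK ℂ F) := by
      intro X hX
      have e1 := hP _ ⟨X, hX, rfl⟩
      calc (cK ℂ E * P * cK ℂ F) * X = cK ℂ E * P * (cK ℂ F * X) := by
            simp only [Matrix.mul_assoc]
        _ = cK ℂ E * (P * cpr E F X) * cK ℂ F := by
            rw [← fx h hf hX]
            simp only [Matrix.mul_assoc]
        _ = (cK ℂ E * cpr E F X) * P * cK ℂ F := by
            rw [e1]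
            simp only [Matrix.mul_assoc]
        _ = _ := by
            rw [xe h hf hX]
            simp only [Matrix.mul_assoc]
    have h2 := (h.comm' _).1 h1
    intro Y hY
    obtain ⟨X, hX, rfl⟩ := hf.lift hY
    have e2 := h2 X hX
    calc P * (cK ℂ F * X * cK ℂ E) = (cK ℂ F * cK ℂ E) * P * (cK ℂ F * X * cK ℂ E) := by
          rw [hf.fe', Matrix.one_mul]
      _ = cK ℂ F * ((cK ℂ E * P * cK ℂ F) * X) * cK ℂ E := by
          simp only [Matrix.mul_assoc]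
      _ = cK ℂ F * (X * (cK ℂ E * P * cK ℂ F)) * cK ℂ E := by rw [e2]
      _ = (cK ℂ F * X * cK ℂ E) * P * (cK ℂ F * cK ℂ E) := by
          simp only [Matrix.mul_assoc]
      _ = _ := by rw [hf.fe', Matrix.mul_one]
  · intro hP
    have h1 : ∀ X ∈ LZ Z, (cK ℂ E * P * cK ℂ F) * X = X * (cK ℂ E * P * cK ℂ F) := by
      intro X hX
      obtain ⟨h0, h2, h3⟩ := hf.comp hX
      have e1 := hP _ h0
      calc (cK ℂ E * P * cK ℂ F) * X = cK ℂ E * P * (cK ℂ F * X) := by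
            simp only [Matrix.mul_assoc]
        _ = cK ℂ E * P * (cK ℂ F * X * cK ℂ E * cK ℂ F) := by rw [← h3]
        _ = cK ℂ E * (P * (cK ℂ F * X * cK ℂ E)) * cK ℂ F := by
            simp only [Matrix.mul_assoc]
        _ = (cK ℂ E * (cK ℂ F * X * cK ℂ E)) * P * cK ℂ F := by
            rw [e1]
            simp only [Matrix.mul_assoc]
        _ = X * cK ℂ E * P * cK ℂ F := by rw [← h2]
        _ = _ := by simp only [Matrix.mul_assoc]
    have h2 := (h.comm' _).2 h1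
    rintro _ ⟨X, hX, rfl⟩
    have e2 := h2 X hX
    rw [cpr_apply]
    calc P * (cK ℂ F * X * cK ℂ E) = (cK ℂ F * cK ℂ E) * P * (cK ℂ F * X * cK ℂ E) := by
          rw [hf.fe', Matrix.one_mul]
      _ = cK ℂ F * ((cK ℂ E * P * cK ℂ F) * X) * cK ℂ E := by
          simp only [Matrix.mul_assoc]
      _ = cK ℂ F * (X * (cK ℂ E * P * cK ℂ F)) * cK ℂ E := by rw [e2]
      _ = (cK ℂ F * X * cK ℂ E) * P * (cK ℂ F * cK ℂ E) := by
          simp only [Matrix.mul_assoc]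
      _ = _ := by rw [hf.fe', Matrix.mul_one]

theorem inD_iff : InD (K := K) ((Y224.TS.LT S).map (cpr E F)) = EnK Z' := by
  funext X
  exact propext (cpr_comm h hf (km X))

theorem inC_iff : InC (K := K) ((Y224.TS.LT S).map (cpr E F)) = CmK Z' := by
  funext X
  refine propext ⟨fun hX Q hQ => ?_, fun hX P hP => ?_⟩
  · have h1 := hX (qm Q) ((cpr_comm h hf _).2 hQ)
    apply km_inj
    rw [km_mul, km_mul, km_kq]
    exact h1.symm
  · obtain ⟨m, c, Q, hQ, rfl⟩ := commutant_expand gal_LZ ((cpr_comm h hf _).1 hP)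
    rw [Finset.sum_mul, Finset.mul_sum]
    refine Finset.sum_congr rfl fun j _ => ?_
    have h1 := congrArg km (hX (Q j) (hQ j))
    rw [km_mul, km_mul, km_kq] at h1
    rw [smul_mul_assoc, mul_smul_comm, h1]

theorem cpr_irr {U : Submodule ℂ (Fin G ⊕ Fin G → ℂ)} (hU : IrS (Y224.TS.LT S) U)
    (hinj : ∀ u ∈ U, ml F u = 0 → u = 0) : IrS ((Y224.TS.LT S).map (cpr E F)) (U.map (ml F)) := by
  refine ⟨?_, ?_, ?_⟩
  · intro h1
    apply hU.1
    rw [eq_bot_iff]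
    intro u hu
    have h2 : ml F u ∈ U.map (ml F) := ⟨u, hu, rfl⟩
    rw [h1, Submodule.mem_bot] at h2
    exact hinj u hu h2
  · rintro _ ⟨X, hX, rfl⟩ _ ⟨u, hu, rfl⟩
    rw [← act_T h hf hX]
    exact ⟨_, hU.2.1 X hX u hu, rfl⟩
  · intro W hW hs
    have h1 : Stab (Y224.TS.LT S) (U ⊓ W.comap (ml F)) := by
      rintro X hX u ⟨hu, hu'⟩
      refine ⟨hU.2.1 X hX u hu, ?_⟩
      change ml F (X *ᵥ u) ∈ W
      rw [act_T h hf hX]
      exact hs _ ⟨X, hX, rfl⟩ _ hu'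
    rcases hU.2.2 _ inf_le_left h1 with h2 | h2
    · left
      rw [eq_bot_iff]
      intro w hw
      obtain ⟨u, hu, rfl⟩ := hW hw
      have h3 : u ∈ U ⊓ W.comap (ml F) := ⟨hu, hw⟩
      rw [h2, Submodule.mem_bot] at h3
      rw [h3, map_zero]
      exact Submodule.zero_mem _
    · right
      apply le_antisymm hW
      rintro _ ⟨u, hu, rfl⟩
      have h3 : u ∈ U ⊓ W.comap (ml F) := by rw [h2]; exact hu
      exact h3.2

end cmp

/-- stability of the Lie algebra -/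
theorem LT_gal {B : Type} [Fintype B] [DecidableEq B] {S : Set (Matrix B B ℂ)} (γ : ℂ ≃+* ℂ)
    (hS : ∀ D ∈ S, D.map γ ∈ S) : ∀ X ∈ Y224.TS.LT S, X.map γ ∈ Y224.TS.LT S := by
  let C : Submodule ℂ (Matrix B B ℂ) :=
    { carrier := {X | X.map γ ∈ Y224.TS.LT S}
      add_mem' := by
        intro X Y hX hY
        change (X + Y).map γ ∈ Y224.TS.LT S
        rw [Matrix.map_add γ (map_add γ)]
        exact Submodule.add_mem _ hX hY
      zero_mem' := by
        change (0 : Matrix B B ℂ).map γ ∈ Y224.TS.LT S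
        rw [Matrix.map_zero γ (map_zero γ)]
        exact Submodule.zero_mem _
      smul_mem' := by
        intro c X hX
        change (c • X).map γ ∈ Y224.TS.LT S
        have h1 : (c • X).map γ = γ c • X.map γ := by
          ext i j
          simp
        rw [h1]
        exact Submodule.smul_mem _ _ hX }
  have h1 : Y224.TS.LT S ≤ C := by
    refine LT_le (fun D hD => LT_gen (hS D hD)) ?_
    intro X hX Y hY
    change (X * Y - Y * X).map γ ∈ Y224.TS.LT S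
    rw [Matrix.map_sub γ (map_sub γ), Matrix.map_mul, Matrix.map_mul]
    exact LT_br hX hY
  exact fun X hX => h1 hX

variable [Algebra.IsAlgebraic K ℂ]

/-- **Elements of rank one.** -/
theorem rk_div (h : TD Z S) (hZ : PM Z) (hSg : ∀ γ : ℂ ≃ₐ[K] ℂ, ∀ D ∈ S, D.map γ ∈ S)
    (hf : Fac Z Z' E F) (hdiv : DivF K Z') {U : Submodule ℂ (Fin G ⊕ Fin G → ℂ)}
    (hU : IrS (LZ Z) U) (hi : ∀ u ∈ U, ml F u = 0 → u = 0) (hn : 2 ≤ finrank ℂ U) :
    HasRk S U := by
  have hU' : IrS (Y224.TS.LT S) U := (h.irS hZ).2 hU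
  have hbrT : ∀ X ∈ Y224.TS.LT S, ∀ Y ∈ Y224.TS.LT S, X * Y - Y * X ∈ Y224.TS.LT S := fun X hX Y hY => LT_br hX hY
  -- an involution which is not a scalar
  obtain ⟨D, hD, hns⟩ : ∃ D ∈ S, ∀ c : ℂ, ∃ u ∈ U, D *ᵥ u ≠ c • u := by
    by_contra hcon
    push Not at hcon
    let C : Submodule ℂ (Matrix (Fin G ⊕ Fin G) (Fin G ⊕ Fin G) ℂ) :=
      { carrier := {X | ∃ c : ℂ, ∀ u ∈ U, X *ᵥ u = c • u}
        add_mem' := by
          rintro X Y ⟨c, hc⟩ ⟨d, hd⟩
          exact ⟨c + d, fun u hu => by rw [add_mulVec, hc u hu, hd u hu, add_smul]⟩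
        zero_mem' := ⟨0, fun u _ => by rw [zero_mulVec, zero_smul]⟩
        smul_mem' := by
          rintro r X ⟨c, hc⟩
          exact ⟨r * c, fun u hu => by rw [smul_mulVec, hc u hu, smul_smul]⟩ }
    have hC : Y224.TS.LT S ≤ C := by
      refine LT_le (fun D hD => hcon D hD) ?_
      rintro X ⟨c, hc⟩ Y ⟨d, hd⟩
      refine ⟨0, fun u hu => ?_⟩
      rw [sub_mulVec, ← mulVec_mulVec, ← mulVec_mulVec, hc u hu, hd u hu, mulVec_smul,
        mulVec_smul, hc u hu, hd u hu, smul_smul, smul_smul, mul_comm, sub_self, zero_smul]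
    obtain ⟨u, hu, hu0⟩ := (Submodule.ne_bot_iff U).1 hU'.1
    rcases hU'.2.2 (Submodule.span ℂ {u})
      (by rw [Submodule.span_singleton_le_iff_mem]; exact hu) (by
        intro X hX w hw
        obtain ⟨r, rfl⟩ := Submodule.mem_span_singleton.1 hw
        obtain ⟨c, hc⟩ := hC hX
        rw [mulVec_smul, hc u hu]
        exact Submodule.smul_mem _ _ (Submodule.smul_mem _ _
          (Submodule.mem_span_singleton_self u))) with h1 | h1
    · rw [Submodule.span_singleton_eq_bot] at h1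
      exact hu0 h1
    · rw [← h1, finrank_span_singleton hu0] at hn
      omega
  have hDm : D ∈ Y224.TS.LT S := LT_gen hD
  have hD2 := h.sq D hD
  have hDD : ∀ u, D *ᵥ (D *ᵥ u) = u := fun u => by rw [mulVec_mulVec, hD2, one_mulVec]
  obtain ⟨v, hv, hv0, hDv⟩ : ∃ v ∈ U, v ≠ 0 ∧ D *ᵥ v = v := by
    obtain ⟨u, hu, hu'⟩ := hns (-1)
    refine ⟨u + D *ᵥ u, U.add_mem hu (hU'.2.1 D hDm u hu), fun h0 => hu' ?_, ?_⟩
    · rw [neg_one_smul]
      exact eq_neg_of_add_eq_zero_right h0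
    · rw [mulVec_add, hDD, add_comm]
  obtain ⟨u, hu, hu0, hDu⟩ : ∃ u ∈ U, u ≠ 0 ∧ D *ᵥ u = -u := by
    obtain ⟨u, hu, hu'⟩ := hns 1
    refine ⟨u - D *ᵥ u, U.sub_mem hu (hU'.2.1 D hDm u hu), fun h0 => hu' ?_, ?_⟩
    · rw [one_smul]
      exact (sub_eq_zero.1 h0).symm
    · rw [mulVec_sub, hDD, neg_sub]
  -- the compression
  obtain ⟨L', hL'⟩ : ∃ L', L' = (Y224.TS.LT S).map (cpr E F) := ⟨_, rfl⟩
  have hW : IrS L' (U.map (ml F)) := by
    rw [hL']
    exact cpr_irr h hf hU' hi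
  have hgal : ∀ γ : ℂ ≃ₐ[K] ℂ, ∀ X ∈ L', X.map γ ∈ L' := by
    rw [hL']
    rintro γ _ ⟨X, hX, rfl⟩
    refine ⟨X.map γ, LT_gal (γ : ℂ ≃+* ℂ) (hSg γ) X hX, ?_⟩
    rw [cpr_apply, cpr_apply, Matrix.map_mul, Matrix.map_mul]
    have e1 : ∀ {m n : Type} (M : Matrix m n ℚ), (cK ℂ M).map γ = cK ℂ M := fun M =>
      cK_aut (γ : ℂ ≃+* ℂ) M
    rw [e1, e1]
  have hred : CRed L' := by
    rw [hL']
    exact cpr_red h hf
  have hbr : ∀ X ∈ L', ∀ Y ∈ L', X * Y - Y * X ∈ L' := by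
    rw [hL']
    exact cpr_br h hf
  have hC : InC (K := K) L' = CmK Z' := by rw [hL', inC_iff h hf]
  have hDc : InD (K := K) L' = EnK Z' := by rw [hL', inD_iff h hf]
  obtain ⟨z, ⟨N, hz⟩, w0, hw0, hw0'⟩ := exists_ne_W (K := K) hred hW
    (P := fun z => ∃ N, DivK (K := K) (CmK Z') (EnK Z') z N) (by
      rintro z ⟨N, hz⟩
      rw [hC]
      exact hz.comm) hdiv
  rw [← hC, ← hDc] at hz
  obtain ⟨c, hc⟩ := scalar_W hred hW hz.comm hz.endo
  have hc0 : c ≠ 0 := by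
    rintro rfl
    apply hw0'
    rw [hc w0 hw0, zero_smul]
  -- the functional
  have hvW : ml F v ∈ U.map (ml F) := ⟨v, hv, rfl⟩
  have huW : ml F u ∈ U.map (ml F) := ⟨u, hu, rfl⟩
  obtain ⟨l, hlv, hlu⟩ : ∃ l : Module.Dual ℂ (U.map (ml F)), l ⟨ml F v, hvW⟩ = 0 ∧
      l ⟨ml F u, huW⟩ = 1 := by
    have hnot : (⟨ml F u, huW⟩ : U.map (ml F)) ∉
        Submodule.span ℂ {(⟨ml F v, hvW⟩ : U.map (ml F))} := by
      intro hcon
      obtain ⟨r, hr⟩ := Submodule.mem_span_singleton.1 hcon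
      have h1 : r • ml F v = ml F u := congrArg Subtype.val hr
      have h2 : ml F (r • v - u) = 0 := by rw [map_sub, map_smul, h1, sub_self]
      have h3 := hi _ (U.sub_mem (U.smul_mem r hv) hu) h2
      have h4 : u = r • v := (sub_eq_zero.1 h3).symm
      have h5 : (2 : ℂ) • u = 0 := by
        have h6 : D *ᵥ u = u := by rw [h4, mulVec_smul, hDv]
        rw [hDu] at h6
        rw [two_smul]
        nth_rewrite 1 [← h6]
        rw [neg_add_cancel]
      exact hu0 ((smul_eq_zero.1 h5).resolve_left two_ne_zero)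
    obtain ⟨l, hl1, hl2⟩ := Submodule.exists_dual_map_eq_bot_of_notMem hnot inferInstance
    refine ⟨(l ⟨ml F u, huW⟩)⁻¹ • l, ?_, ?_⟩
    · have h1 : l ⟨ml F v, hvW⟩ ∈ (Submodule.span ℂ {(⟨ml F v, hvW⟩ : U.map (ml F))}).map l :=
        ⟨_, Submodule.mem_span_singleton_self _, rfl⟩
      rw [hl2, Submodule.mem_bot] at h1
      rw [LinearMap.smul_apply, h1, smul_zero]
    · rw [LinearMap.smul_apply, smul_eq_mul, inv_mul_cancel₀ hl1]
  let f : Module.End ℂ (U.map (ml F)) := l.smulRight ⟨ml F v, hvW⟩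
  let f' : Module.End ℂ (U.map (ml F)) := l.smulRight ⟨ml F u, huW⟩
  have hff : ∀ w, (f * f' - f' * f) w = l w • ⟨ml F v, hvW⟩ := by
    intro w
    change l (l w • ⟨ml F u, huW⟩) • (⟨ml F v, hvW⟩ : U.map (ml F)) -
      l (l w • ⟨ml F v, hvW⟩) • (⟨ml F u, huW⟩ : U.map (ml F)) = _
    rw [map_smul, map_smul, hlv, hlu, smul_zero, zero_smul, sub_zero, smul_eq_mul, mul_one]
  obtain ⟨X', hX', hXe'⟩ := full_W hgal hred hbr hz hW hc0 hc f f'
  rw [hL'] at hX'
  obtain ⟨X, hX, rfl⟩ := hX'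
  have hXu : ∀ (x : Fin G ⊕ Fin G → ℂ) (hx : x ∈ U), X *ᵥ x = l ⟨ml F x, x, hx, rfl⟩ • v := by
    intro x hx
    have h1 := hXe' ⟨ml F x, x, hx, rfl⟩
    rw [hff] at h1
    have h2 : ml F (l ⟨ml F x, x, hx, rfl⟩ • v) = ml F (X *ᵥ x) := by
      rw [act_T h hf hX, ← h1, map_smul]
      rfl
    have h3 : ml F (X *ᵥ x - l ⟨ml F x, x, hx, rfl⟩ • v) = 0 := by
      rw [map_sub, h2, sub_self]
    exact sub_eq_zero.1 (hi _ (U.sub_mem (hU'.2.1 X hX x hx) (U.smul_mem _ hv)) h3)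
  refine ⟨D, hDm, hD2, _, gup_mem hbrT hDm hD2 hX, gup_l hD2 X, gup_r hD2 X, ?_⟩
  have hNx : ∀ x ∈ U, ∃ r : ℂ, ((1 / 4 : ℂ) • ((1 + D) * X * (1 - D))) *ᵥ x = r • v := by
    intro x hx
    have h1 : x - D *ᵥ x ∈ U := U.sub_mem hx (hU'.2.1 D hDm x hx)
    refine ⟨(1 / 2 : ℂ) * l ⟨ml F (x - D *ᵥ x), x - D *ᵥ x, h1, rfl⟩, ?_⟩
    rw [smul_mulVec, ← mulVec_mulVec, ← mulVec_mulVec, sub_mulVec, one_mulVec, hXu _ h1,
      mulVec_smul, add_mulVec, one_mulVec, hDv, ← two_smul ℂ v, smul_smul, smul_smul]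
    congr 1
    ring
  have hNu : ((1 / 4 : ℂ) • ((1 + D) * X * (1 - D))) *ᵥ u = v := by
    have h1 : u - D *ᵥ u ∈ U := U.sub_mem hu (hU'.2.1 D hDm u hu)
    have h2 : l ⟨ml F (u - D *ᵥ u), u - D *ᵥ u, h1, rfl⟩ = 2 := by
      have h3 : (⟨ml F (u - D *ᵥ u), u - D *ᵥ u, h1, rfl⟩ : U.map (ml F)) =
          (2 : ℂ) • ⟨ml F u, huW⟩ := by
        apply Subtype.ext
        change ml F (u - D *ᵥ u) = (2 : ℂ) • ml F u
        rw [hDu, sub_neg_eq_add, ← two_smul ℂ u, map_smul]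
      rw [h3, map_smul, hlu, smul_eq_mul, mul_one]
    rw [smul_mulVec, ← mulVec_mulVec, ← mulVec_mulVec, sub_mulVec, one_mulVec, hXu _ h1,
      mulVec_smul, add_mulVec, one_mulVec, hDv, ← two_smul ℂ v, smul_smul, smul_smul, h2]
    norm_num
  have hmap : U.map (mulVecLin ((1 / 4 : ℂ) • ((1 + D) * X * (1 - D)))) =
      Submodule.span ℂ {v} := by
    apply le_antisymm
    · rintro _ ⟨x, hx, rfl⟩
      obtain ⟨r, hr⟩ := hNx x hx
      rw [mulVecLin_apply, hr]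
      exact Submodule.smul_mem _ _ (Submodule.mem_span_singleton_self v)
    · rw [Submodule.span_singleton_le_iff_mem]
      exact ⟨u, hu, hNu⟩
  rw [hmap, finrank_span_singleton hv0]

end

end Pool.Agent.H943.LA
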