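import Mathlib
import Pool.Graph.R_pool_sql_team_seeded_1acbe0a2.Y91.L.Tens

/-!
# Galois conjugates of Hodge-Tate elements
-/

set_option autoImplicit false
set_option linter.unusedSectionVars false

namespace Pool.Agent.H943.LA

open Matrix Module Pool.Agent Pool.Agent.W437.HC Pool.Agent.W437.HD Pool.Agent.W548.Odd Pool.Agent.Y90
open Pool.Agent.H204R3.SP Pool.Agent.H204R3.GP TensorProduct Pool.Agent.W522.U Pool.Agent.Y224.TS
open St (IsHodgeTate IsTateModule)
open Pool.Agent.Y90.St (IsHom)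

noncomputable section

variable {H : Type} [AddCommGroup H] [Module ℚ H] {K : Type} [Field K] [CharZero K] [Algebra K ℂ]
  {T : Type} [AddCommGroup T] [Module ℂ T] {per : H →+ T} {Γ : Type} [Group Γ]
  {ρ : Representation K Γ (K ⊗[ℚ] H)} {χ : Γ →* K} {G : ℕ}
  (b : Basis (Fin G ⊕ Fin G) ℚ H)

/-- the semilinear map -/
def th (γ : ℂ ≃ₐ[K] ℂ) (v : ℂ ⊗[K] (K ⊗[ℚ] H)) : ℂ ⊗[K] (K ⊗[ℚ] H) :=
  (eY K b).symm (fun i => γ (eY K b v i))

variable {b}

theorem eY_th (γ : ℂ ≃ₐ[K] ℂ) (v : ℂ ⊗[K] (K ⊗[ℚ] H)) :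
    eY K b (th b γ v) = fun i => γ (eY K b v i) := LinearEquiv.apply_symm_apply _ _

theorem th_add (γ : ℂ ≃ₐ[K] ℂ) (u v : ℂ ⊗[K] (K ⊗[ℚ] H)) :
    th b γ (u + v) = th b γ u + th b γ v := by
  apply (eY K b).injective
  rw [map_add, eY_th, eY_th, eY_th, map_add]
  funext i
  simp

theorem th_smul (γ : ℂ ≃ₐ[K] ℂ) (c : ℂ) (v : ℂ ⊗[K] (K ⊗[ℚ] H)) :
    th b γ (c • v) = γ c • th b γ v := by
  apply (eY K b).injective
  rw [map_smul, eY_th, eY_th, map_smul]
  funext i
  simp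

theorem th_surj (γ : ℂ ≃ₐ[K] ℂ) (v : ℂ ⊗[K] (K ⊗[ℚ] H)) : ∃ w, th b γ w = v := by
  refine ⟨th b γ.symm v, ?_⟩
  apply (eY K b).injective
  rw [eY_th, eY_th]
  funext i
  simp

/-- maps with conjugate matrices -/
theorem th_map (γ : ℂ ≃ₐ[K] ℂ) {f f' : Module.End ℂ (ℂ ⊗[K] (K ⊗[ℚ] H))}
    (h : mt b f' = (mt b f).map γ) (v : ℂ ⊗[K] (K ⊗[ℚ] H)) :
    f' (th b γ v) = th b γ (f v) := by
  apply (eY K b).injective
  rw [← mt_mulVec, h, eY_th, eY_th, ← mt_mulVec]
  funext i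
  simp [mulVec, dotProduct]

theorem th_bc (γ : ℂ ≃ₐ[K] ℂ) (f : Module.End K (K ⊗[ℚ] H)) (v : ℂ ⊗[K] (K ⊗[ℚ] H)) :
    f.baseChange ℂ (th b γ v) = th b γ (f.baseChange ℂ v) := by
  refine th_map γ ?_ v
  rw [mt_bc]
  ext i j
  simp

/-- the conjugate form -/
def phT (γ : ℂ ≃ₐ[K] ℂ) {κ : Type} (φ : MultilinearMap ℂ (fun _ : κ => ℂ ⊗[K] (K ⊗[ℚ] H)) ℂ) :
    MultilinearMap ℂ (fun _ : κ => ℂ ⊗[K] (K ⊗[ℚ] H)) ℂ where
  toFun := fun w => γ.symm (φ fun k => th b γ (w k))
  map_update_add' := by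
    intro _ w k x y
    have h1 : ∀ x, (fun j => th b γ (Function.update w k x j)) =
        Function.update (fun j => th b γ (w j)) k (th b γ x) := by
      intro x
      funext j
      by_cases hj : j = k
      · subst hj
        rw [Function.update_self, Function.update_self]
      · rw [Function.update_of_ne hj, Function.update_of_ne hj]
    rw [h1, h1, h1, th_add, φ.map_update_add, map_add]
  map_update_smul' := by
    intro _ w k c x
    have h1 : ∀ x, (fun j => th b γ (Function.update w k x j)) =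
        Function.update (fun j => th b γ (w j)) k (th b γ x) := by
      intro x
      funext j
      by_cases hj : j = k
      · subst hj
        rw [Function.update_self, Function.update_self]
      · rw [Function.update_of_ne hj, Function.update_of_ne hj]
    rw [h1, h1, th_smul, φ.map_update_smul, smul_eq_mul, map_mul, AlgEquiv.symm_apply_apply,
      smul_eq_mul]

theorem phT_apply (γ : ℂ ≃ₐ[K] ℂ) {κ : Type}
    (φ : MultilinearMap ℂ (fun _ : κ => ℂ ⊗[K] (K ⊗[ℚ] H)) ℂ) (w : κ → ℂ ⊗[K] (K ⊗[ℚ] H)) :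
    phT (b := b) γ φ w = γ.symm (φ fun k => th b γ (w k)) := rfl

/-- **The conjugates of Hodge-Tate elements** over `K` are Hodge-Tate elements. -/
theorem ht_gal (γ : ℂ ≃ₐ[K] ℂ) {σ : ℂ ≃+* ℂ} {h h' : Module.End ℂ (ℂ ⊗[K] (K ⊗[ℚ] H))}
    (hh : IsHodgeTate per ρ χ σ h) (h1 : mt b h' = (mt b h).map γ) :
    IsHodgeTate per ρ χ (σ.trans (γ : ℂ ≃+* ℂ)) h' := by
  have e1 := th_map γ h1
  refine ⟨fun v => ?_, ?_, ?_⟩
  · obtain ⟨w, rfl⟩ := th_surj (b := b) γ v
    rw [e1, e1, hh.idem]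
  · rintro m φ ⟨Δ, hΔ, hφ⟩ v
    choose w hw using fun k => th_surj (b := b) γ (v k)
    have h2 := hh.tate m (phT (b := b) γ φ) ⟨Δ, hΔ, fun s hs w => by
      have h3 := hφ s hs (fun k => th b γ (w k))
      rw [phT_apply, phT_apply]
      have h4 : (fun k => th b γ ((ρ s).baseChange ℂ (w k))) =
          fun k => (ρ s).baseChange ℂ (th b γ (w k)) := by
        funext k
        rw [th_bc]
      rw [h4, h3, map_mul, map_pow, AlgEquiv.commutes]⟩ w
    have h5 := congrArg γ h2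
    simp only [map_sum, phT_apply, map_mul, AlgEquiv.apply_symm_apply, map_natCast] at h5
    have h6 : (fun k => th b γ (w k)) = v := funext hw
    rw [h6] at h5
    rw [← h5]
    refine Finset.sum_congr rfl fun k _ => ?_
    congr 1
    funext j
    by_cases hj : j = k
    · subst hj
      rw [Function.update_self, Function.update_self, ← e1, hw]
    · rw [Function.update_of_ne hj, Function.update_of_ne hj, hw]
  · intro a Ψ hΨ
    have h2 := hh.trace a Ψ hΨ
    rw [← trace_bc2 b a] at h2 ⊢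
    rw [h1]
    have h3 : (qm (LinearMap.toMatrix b b a) * (mt b h).map γ).trace =
        γ ((qm (LinearMap.toMatrix b b a) * mt b h).trace) := by
      have h4 : (qm (LinearMap.toMatrix b b a)).map γ = qm (LinearMap.toMatrix b b a) := by
        ext i j
        simp [qm]
      have h5 : qm (LinearMap.toMatrix b b a) * (mt b h).map γ =
          (qm (LinearMap.toMatrix b b a) * mt b h).map γ := by
        rw [Matrix.map_mul, h4]
      rw [h5]
      simp only [Matrix.trace, Matrix.diag_apply, Matrix.map_apply, map_sum]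
    rw [h3, h2]
    rfl

/-- The set of the involutions is stable under the Galois group. -/
theorem SH_gal (γ : ℂ ≃ₐ[K] ℂ) {D : Matrix (Fin G ⊕ Fin G) (Fin G ⊕ Fin G) ℂ}
    (hD : D ∈ SH per ρ χ b) : D.map γ ∈ SH per ρ χ b := by
  obtain ⟨σ, h, hh, rfl⟩ := hD
  obtain ⟨h', hh'⟩ := mt_surj (K := K) b ((mt b h).map γ)
  refine ⟨_, h', ht_gal γ hh hh', ?_⟩
  rw [mt_sub, mt_smul, mt_one, mt_sub, mt_smul, mt_one, hh']
  ext i j
  simp only [Matrix.sub_apply, Matrix.smul_apply, Matrix.map_apply, map_sub, smul_eq_mul,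
    map_mul, Matrix.one_apply]
  have h2 : γ (2 : ℂ) = 2 := map_ofNat γ 2
  split <;> simp [h2]

end

end Pool.Agent.H943.LA
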