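import Mathlib
import Pool.Graph.R_pool_sql_team_seeded_1acbe0a2.Y4.P.Stm4

/-!
# Abelian varieties of division type at a prime number

Let `U` be a simple abelian subvariety of a complex abelian variety, `D` its endomorphism algebra,
`F` the centre of `D`, and `C` the commutant of `D` in the algebra of all endomorphisms of the
rational homology `U` (this is a central simple algebra over `F`, too). Let `K` be a field of
characteristic zero (for example the field `ℚ_ℓ`). Then `K ⊗ F` is a product of fields `F_λ`, and
`K ⊗ C` is the product of central simple algebras `C_λ` over `F_λ`. Here we say that `C_λ` is a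
division algebra of degree and exponent `q`, for a prime power `q`. For `K = ℚ_ℓ` each division
algebra over `F_λ` has equal degree and exponent, by local class field theory.
-/

namespace Pool.Agent.H943.LA

open Module TensorProduct Polynomial
open Pool.Agent.Y4.Q (IsEndo IsMaxEndo IsCMEndo)

variable {H T : Type} [AddCommGroup H] [Module ℚ H] [AddCommGroup T] [Module ℂ T]

/-- The linear operator `X` on `K ⊗ U` is a combination of endomorphisms of the abelian subvariety
`U`: it belongs to `K ⊗ D`. -/
def InEnd (K : Type) [Field K] [CharZero K] (per : H →+ T) (U : Submodule ℚ H)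
    (X : Module.End K (K ⊗[ℚ] U)) : Prop :=
  X ∈ Submodule.span K {Y | ∃ b : U →ₗ[ℚ] U, IsEndo per U b ∧ Y = b.baseChange K}

/-- The linear operator `X` on `K ⊗ U` commutes with all endomorphisms of the abelian subvariety
`U`: it belongs to `K ⊗ C`. -/
def InComm (K : Type) [Field K] [CharZero K] (per : H →+ T) (U : Submodule ℚ H)
    (X : Module.End K (K ⊗[ℚ] U)) : Prop :=
  ∀ b : U →ₗ[ℚ] U, IsEndo per U b → X * b.baseChange K = b.baseChange K * X

/-- For an element `z` of the field `F_λ`, which is a factor of `K ⊗ F`: the map `φ` is a
representation of the algebra `C_λ` by matrices of size `r`, that is a representation of `K ⊗ C`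
which kills all elements that are killed by `z`. -/
structure IsRepAt (K : Type) [Field K] [CharZero K] (per : H →+ T) (U : Submodule ℚ H)
    (z : Module.End K (K ⊗[ℚ] U)) {r : ℕ}
    (φ : Module.End K (K ⊗[ℚ] U) → Matrix (Fin r) (Fin r) K) : Prop where
  add : ∀ X Y, InComm K per U X → InComm K per U Y → φ (X + Y) = φ X + φ Y
  mul : ∀ X Y, InComm K per U X → InComm K per U Y → φ (X * Y) = φ X * φ Y
  one : φ 1 = 1
  zero : ∀ X, InComm K per U X → X * z = 0 → φ X = 0

/-- The element `z` of `K ⊗ F` is a generator (over `K`) of a factor `F_λ` of the algebra `K ⊗ F`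
(and zero in the other factors), and the factor `C_λ` of `K ⊗ C` is a division algebra the degree
and the exponent of which are the prime power `q`. -/
structure IsDivisionAt (K : Type) [Field K] [CharZero K] (per : H →+ T) (U : Submodule ℚ H)
    (z : Module.End K (K ⊗[ℚ] U)) (q : ℕ) : Prop where
  /-- `z` belongs to `K ⊗ D` -/
  endo : InEnd K per U z
  /-- `z` belongs to `K ⊗ C` -/
  comm : InComm K per U z
  /-- `z` is not nilpotent -/
  ne : z * z ≠ 0
  /-- `z` generates the component of the centre -/
  center : ∀ x, InEnd K per U x → InComm K per U x → ∃ f : K[X], x * z = aeval z f * z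
  /-- the component of `K ⊗ C` has no zero divisors -/
  div : ∀ X, InComm K per U X → X * z ≠ 0 → ∀ v, (X * z) v = 0 → z v = 0
  /-- the dimension of `C_λ` over `F_λ` is `q ^ 2` -/
  degree : Set.finrank K {Y | ∃ X, InComm K per U X ∧ Y = X * z} =
    q ^ 2 * Set.finrank K {Y | ∃ f : K[X], Y = aeval z f * z}
  /-- the degree is a prime power -/
  prime_power : IsPrimePow q
  /-- the exponent is `q`: if the tensor product over `F_λ` of `k` copies of `C_λ` has a
  representation the degree over `F_λ` of which is at most `q ^ k`, then `q` divides `k` -/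
  exponent : ∀ k r : ℕ, 0 < k → 0 < r →
    r ≤ q ^ k * Set.finrank K {Y | ∃ f : K[X], Y = aeval z f * z} →
    ∀ φ : Fin k → (Module.End K (K ⊗[ℚ] U) → Matrix (Fin r) (Fin r) K),
    (∀ i, IsRepAt K per U z (φ i)) →
    (∀ i j, i ≠ j → ∀ X Y, InComm K per U X → InComm K per U Y →
      φ i X * φ j Y = φ j Y * φ i X) →
    (∀ i j, φ i z = φ j z) → q ∣ k

/-- The (simple) abelian subvariety `U` is of division type over `K`: its endomorphism algebra
contains a maximal commutative subfield which is a CM field or totally real (this is always so),
and all factors of the algebra `K ⊗ C` are division algebras the degree and the exponent of which are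
prime powers: the vector space `K ⊗ U` is the sum of the images of the elements `z` of
`IsDivisionAt`. -/
def IsDivisionSub (K : Type) [Field K] [CharZero K] (per : H →+ T) (U : Submodule ℚ H) : Prop :=
  (∃ a : U →ₗ[ℚ] U, IsMaxEndo per U a ∧ IsCMEndo a) ∧
    Submodule.span K {w | ∃ (z : Module.End K (K ⊗[ℚ] U)) (q : ℕ) (v : K ⊗[ℚ] U),
      IsDivisionAt K per U z q ∧ w = z v} = ⊤

end Pool.Agent.H943.LA
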