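import Mathlib
import Pool.Agent.H943.LA.Fct
import Pool.Agent.H943.LA.SGal
import Pool.Agent.H943.LA.Stm

/-!
# The simple factors of division type
-/

set_option autoImplicit false
set_option linter.unusedSectionVars false

namespace Pool.Agent.H943.LA

open Module Matrix Polynomial TensorProduct Pool.Agent
open Pool.Agent.W437.HC Pool.Agent.W437.HD Pool.Agent.W548.Odd Pool.Agent.W522.U
open Pool.Agent.H204R3.SP Pool.Agent.H204R3.GP Pool.Agent.Y90 Pool.Agent.Y224.TS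
open Pool.Agent.W437.HP (cK cK_mul cK_one)
open Pool.Agent.Y4.Q (IsEndo IsMaxEndo IsCMEndo)
open Pool.Agent.Y4.P (MaxM EigM)
open Pool.Agent.Y4.P.G3 (Sd exists_sd)
open Pool.Agent.Y4.P.G3.Sd (Φ)

noncomputable section

variable {K : Type} [Field K] [CharZero K] [Algebra K ℂ]
variable {H T : Type} [AddCommGroup H] [Module ℚ H] [AddCommGroup T] [Module ℂ T] {per : H →+ T}
  {a : ℕ} {Z' : Matrix (Fin a) (Fin a) ℂ} {U : Submodule ℚ H}
  {e : (Fin a ⊕ Fin a → ℚ) ≃ₗ[ℚ] U} {Ψ₁ : (Fin a → ℂ) →ₗ[ℂ] T} {Ψ₂ : T →ₗ[ℂ] (Fin a → ℂ)}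

/-- the basis -/
def bU (K : Type) [Field K] [CharZero K] (e : (Fin a ⊕ Fin a → ℚ) ≃ₗ[ℚ] U) :
    Basis (Fin a ⊕ Fin a) K (K ⊗[ℚ] U) :=
  Algebra.TensorProduct.basis K (Basis.ofEquivFun e.symm)

/-- matrices -/
def Mt (K : Type) [Field K] [CharZero K] (e : (Fin a ⊕ Fin a → ℚ) ≃ₗ[ℚ] U) :
    Module.End K (K ⊗[ℚ] U) ≃ₐ[K] Matrix (Fin a ⊕ Fin a) (Fin a ⊕ Fin a) K :=
  LinearMap.toMatrixAlgEquiv (bU K e)

theorem Mt_bc (b : U →ₗ[ℚ] U) : Mt K e (b.baseChange K) = kq K ((Φ e).symm b) := by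
  have h1 : (Φ e).symm b = LinearMap.toMatrix (Basis.ofEquivFun e.symm) (Basis.ofEquivFun e.symm) b := by
    ext i j
    have h2 := congrFun (Y4.P.G3.Sd.Φ_symm (e := e) b (Pi.single j 1)) i
    rw [mulVec_single_one] at h2
    rw [LinearMap.toMatrix_apply]
    change (Φ e).symm b i j = e.symm (b (e (Pi.single j 1))) i at h2
    rw [h2]
    simp
  rw [h1]
  unfold Mt bU
  rw [LinearMap.toMatrixAlgEquiv]
  exact LinearMap.toMatrix_baseChange K b _ _

theorem Mt_mul (X Y : Module.End K (K ⊗[ℚ] U)) : Mt K e (X * Y) = Mt K e X * Mt K e Y :=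
  map_mul _ _ _

theorem Mt_apply (X : Module.End K (K ⊗[ℚ] U)) (v : K ⊗[ℚ] U) :
    (bU K e).equivFun (X v) = Mt K e X *ᵥ (bU K e).equivFun v := by
  have h1 := LinearMap.toMatrix_mulVec_repr (bU K e) (bU K e) X v
  exact h1.symm

theorem Mt_inj {X Y : Module.End K (K ⊗[ℚ] U)} (h : Mt K e X = Mt K e Y) : X = Y :=
  (Mt K e).injective h

theorem Mt_eq_zero {X : Module.End K (K ⊗[ℚ] U)} : Mt K e X = 0 ↔ X = 0 :=
  ⟨fun h => Mt_inj (e := e) (by rw [h, map_zero]), fun h => by rw [h, map_zero]⟩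

theorem Mt_aeval (z : Module.End K (K ⊗[ℚ] U)) (f : K[X]) :
    Mt K e (aeval z f * z) = aeval (Mt K e z) f * Mt K e z := by
  rw [Mt_mul]
  congr 1
  exact (Polynomial.aeval_algHom_apply (Mt K e).toAlgHom z f).symm

section

variable (s : Sd per Z' U e Ψ₁ Ψ₂) (h' : PM Z')
include s h'

/-- Endomorphisms commute with the Lie algebra. -/
theorem endo_LZ {b : U →ₗ[ℚ] U} (hb : IsEndo per U b) :
    ∀ Y ∈ LZ Z', qm ((Φ e).symm b) * Y = Y * qm ((Φ e).symm b) := by
  obtain ⟨Ψ, hΨ⟩ := hb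
  exact Pool.Agent.Y261.P.qm_comm (s.comm h' hΨ)

/-- Matrices which commute with the Lie algebra are endomorphisms. -/
theorem LZ_endo {Q : Matrix (Fin a ⊕ Fin a) (Fin a ⊕ Fin a) ℚ}
    (hQ : ∀ Y ∈ LZ Z', qm Q * Y = Y * qm Q) : IsEndo per U (Φ e Q) :=
  s.endo h' (hQ _ DZ_mem)

theorem inComm_iff {X : Module.End K (K ⊗[ℚ] U)} : InComm K per U X ↔ CmK Z' (Mt K e X) := by
  constructor
  · intro h Q hQ
    have h1 := h _ (LZ_endo s h' hQ)
    have h2 := congrArg (Mt K e) h1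
    rw [Mt_mul, Mt_mul, Mt_bc, AlgEquiv.symm_apply_apply] at h2
    exact h2
  · intro h b hb
    have h1 := h _ (endo_LZ s h' hb)
    apply Mt_inj (e := e)
    rw [Mt_mul, Mt_mul, Mt_bc, h1]

theorem inEnd_iff {X : Module.End K (K ⊗[ℚ] U)} : InEnd K per U X ↔ EnK Z' (Mt K e X) := by
  constructor
  · intro h
    unfold InEnd at h
    induction h using Submodule.span_induction with
    | mem X hX =>
      obtain ⟨b, hb, rfl⟩ := hX
      intro Y hY
      rw [Mt_bc, km_kq]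
      exact endo_LZ s h' hb Y hY
    | zero =>
      intro Y _
      rw [map_zero, km_zero, zero_mul, mul_zero]
    | add X X' _ _ h1 h2 =>
      intro Y hY
      rw [map_add, km_add, add_mul, mul_add, h1 Y hY, h2 Y hY]
    | smul c X _ h1 =>
      intro Y hY
      rw [map_smul, km_smul, smul_mul_assoc, mul_smul_comm, h1 Y hY]
  · intro h
    let V : Submodule K (Matrix (Fin a ⊕ Fin a) (Fin a ⊕ Fin a) K) :=
      Submodule.span K {R | ∃ Q : Matrix (Fin a ⊕ Fin a) (Fin a ⊕ Fin a) ℚ,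
        (∀ Y ∈ LZ Z', qm Q * Y = Y * qm Q) ∧ R = kq K Q}
    have h1 : Mt K e X ∈ V := by
      apply desc
      obtain ⟨m, c, Q, hQ, hX⟩ := commutant_expand gal_LZ h
      rw [hX]
      refine Submodule.sum_mem _ fun j _ => Submodule.smul_mem _ _ (Submodule.subset_span ?_)
      exact ⟨kq K (Q j), Submodule.subset_span ⟨Q j, hQ j, rfl⟩, (km_kq _).symm⟩
    have h2 : ∀ R ∈ V, InEnd K per U ((Mt K e).symm R) := by
      intro R hR
      induction hR using Submodule.span_induction with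
      | mem R hR =>
        obtain ⟨Q, hQ, rfl⟩ := hR
        refine Submodule.subset_span ⟨Φ e Q, LZ_endo s h' hQ, ?_⟩
        apply Mt_inj (e := e)
        rw [AlgEquiv.apply_symm_apply, Mt_bc, AlgEquiv.symm_apply_apply]
      | zero =>
        rw [map_zero]
        exact Submodule.zero_mem _
      | add R R' _ _ h1 h2 =>
        rw [map_add]
        exact Submodule.add_mem _ h1 h2
      | smul c R _ h1 =>
        rw [map_smul]
        exact Submodule.smul_mem _ _ h1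
    have h3 := h2 _ h1
    rwa [AlgEquiv.symm_apply_apply] at h3

/-- the dimension of the image of a set -/
theorem fr_image (P : Set (Module.End K (K ⊗[ℚ] U))) :
    Set.finrank K (Mt K e '' P) = Set.finrank K P := by
  unfold Set.finrank
  have h1 : Submodule.span K (Mt K e '' P) =
      (Submodule.span K P).map (Mt K e).toLinearEquiv.toLinearMap := by
    rw [Submodule.map_span]
    rfl
  rw [h1]
  exact LinearEquiv.finrank_map_eq (Mt K e).toLinearEquiv _

theorem divK_of {z : Module.End K (K ⊗[ℚ] U)} {q : ℕ} (hz : IsDivisionAt K per U z q) :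
    DivK (CmK Z') (EnK Z') (Mt K e z) q := by
  have hsurj : ∀ M : Matrix (Fin a ⊕ Fin a) (Fin a ⊕ Fin a) K, ∃ X, Mt K e X = M :=
    (Mt K e).surjective
  have e1 : {Y | ∃ X, CmK (K := K) Z' X ∧ Y = X * Mt K e z} =
      Mt K e '' {Y | ∃ X, InComm K per U X ∧ Y = X * z} := by
    ext Y
    constructor
    · rintro ⟨X, hX, rfl⟩
      obtain ⟨X, rfl⟩ := hsurj X
      exact ⟨X * z, ⟨X, (inComm_iff s h').2 hX, rfl⟩, Mt_mul _ _⟩
    · rintro ⟨_, ⟨X, hX, rfl⟩, rfl⟩
      exact ⟨Mt K e X, (inComm_iff s h').1 hX, Mt_mul _ _⟩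
  have e2 : {Y | ∃ f : K[X], Y = aeval (Mt K e z) f * Mt K e z} =
      Mt K e '' {Y | ∃ f : K[X], Y = aeval z f * z} := by
    ext Y
    constructor
    · rintro ⟨f, rfl⟩
      exact ⟨_, ⟨f, rfl⟩, Mt_aeval _ _⟩
    · rintro ⟨_, ⟨f, rfl⟩, rfl⟩
      exact ⟨f, Mt_aeval _ _⟩
  refine ⟨(inEnd_iff s h').1 hz.endo, (inComm_iff s h').1 hz.comm, fun h0 => hz.ne ?_,
    fun x hx1 hx2 => ?_, fun X hX hX0 v hv => ?_, ?_, hz.prime_power, ?_⟩
  · rw [← Mt_mul] at h0
    exact Mt_eq_zero.1 h0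
  · obtain ⟨x, rfl⟩ := hsurj x
    obtain ⟨f, hf⟩ := hz.center x ((inEnd_iff s h').2 hx1) ((inComm_iff s h').2 hx2)
    refine ⟨f, ?_⟩
    rw [← Mt_aeval, ← hf, Mt_mul]
  · obtain ⟨X, rfl⟩ := hsurj X
    obtain ⟨v, rfl⟩ := (bU K e).equivFun.surjective v
    rw [← Mt_mul] at hX0 hv
    rw [← Mt_apply] at hv ⊢
    have h1 := hz.div X ((inComm_iff s h').2 hX) (fun h0 => hX0 (by rw [h0, map_zero])) v
      ((LinearEquiv.map_eq_zero_iff _).1 hv)
    rw [h1, map_zero]
  · rw [e1, e2, fr_image s h', fr_image s h']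
    exact hz.degree
  · intro k r hk hr hle φ hφ hc hφz
    rw [e2, fr_image s h'] at hle
    refine hz.exponent k r hk hr hle (fun i X => φ i (Mt K e X)) (fun i => ?_) ?_ hφz
    · refine ⟨fun X Y hX hY => ?_, fun X Y hX hY => ?_, ?_, fun X hX h0 => ?_⟩
      · rw [map_add]
        exact (hφ i).add _ _ ((inComm_iff s h').1 hX) ((inComm_iff s h').1 hY)
      · rw [Mt_mul]
        exact (hφ i).mul _ _ ((inComm_iff s h').1 hX) ((inComm_iff s h').1 hY)
      · rw [map_one]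
        exact (hφ i).one
      · refine (hφ i).zero _ ((inComm_iff s h').1 hX) ?_
        rw [← Mt_mul, h0, map_zero]
    · intro i j hij X Y hX hY
      exact hc i j hij _ _ ((inComm_iff s h').1 hX) ((inComm_iff s h').1 hY)

/-- **The simple factors of division type.** -/
theorem divF_of (hd : IsDivisionSub K per U) : DivF K Z' := by
  intro v
  obtain ⟨w, rfl⟩ := (bU K e).equivFun.surjective v
  have h1 : w ∈ (⊤ : Submodule K (K ⊗[ℚ] U)) := trivial
  rw [← hd.2] at h1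
  induction h1 using Submodule.span_induction with
  | mem w hw =>
    obtain ⟨z, q, v, hz, rfl⟩ := hw
    exact Submodule.subset_span ⟨Mt K e z, (bU K e).equivFun v, ⟨q, divK_of s h' hz⟩,
      Mt_apply _ _⟩
  | zero =>
    rw [map_zero]
    exact Submodule.zero_mem _
  | add x y _ _ hx hy =>
    rw [map_add]
    exact Submodule.add_mem _ hx hy
  | smul c x _ hx =>
    rw [map_smul]
    exact Submodule.smul_mem _ _ hx

end

end

end Pool.Agent.H943.LA
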