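import Mathlib
import Pool.Agent.H943.LA.Tns
import Pool.Graph.R_pool_sql_team_seeded_1acbe0a2.Y91.L.Grp

/-!
# The monodromy groups are determined by the Hodge tensors, division type

The arguments are those of `Pool.Agent.Y91.L.Grp`.
-/

set_option linter.unusedSectionVars false

namespace Pool.Agent.H943.LA

open Matrix Module Pool.Agent.W437.HC Pool.Agent.Y90 TensorProduct
open Pool.Agent.H204R3.CM (HodgeMul)
open Pool.Agent.Y130.GS (monodromy TensorSemisimple Subvariety IsGaloisSpecial IsTateForm monodromy_le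
  monodromy_ge)
open Pool.Agent.Y91.L (Extends IsTateTensor exists_extends ext_of_extends HasHomotheties
  HodgeTensorsAreTate nondeg_of zero_of_ne)

noncomputable section

variable {H : Type} [AddCommGroup H] [Module ℚ H] {K : Type} [Field K] [CharZero K]
  {T : Type} [AddCommGroup T] [Module ℂ T] {per : H →+ T} {Γ : Type} [Group Γ]

variable [Algebra K ℂ] [Algebra.IsAlgebraic K ℂ]

/-- Tate tensors are combinations of extensions of Hodge tensors. -/
theorem mem_span_ofD (hX : Pool.Agent.Y90.St.IsAV per) (hs : GoodTypeD K per)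
    (ht : Pool.Agent.Y4.Q.IsSeparated per) {E : H → H → ℚ}
    {ρ : Representation K Γ (K ⊗[ℚ] H)} {χ : Γ →* K}
    (hE : Pool.Agent.Y90.St.IsPolarization per E)
    (hρ : Pool.Agent.Y224.TS.St.IsTateModule per E ρ χ) {n : ℕ}
    {φ : MultilinearMap K (fun _ : Fin (2 * n) => K ⊗[ℚ] H) K} (hφ : IsTateTensor ρ χ n φ) :
    φ ∈ Submodule.span K {ψ | ∃ f : MultilinearMap ℚ (fun _ : Fin (2 * n) => H) ℚ,
      HodgeMul per f ∧ Extends K f ψ} := by
  have : FiniteDimensional ℚ H := hX.1
  obtain ⟨N, c, f, hf, hφf⟩ := tate_hodge Pool.Agent.Y71.OD2.duo hX hs ht hE hρ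
    (κ := Fin (2 * n)) (n := n) (Nat.card_fin _) φ hφ
  choose ψ hψ using fun j => exists_extends (K := K) (f j)
  have h1 : φ = ∑ j, c j • ψ j := by
    refine ext_of_extends fun v => ?_
    rw [hφf, _root_.sum_apply]
    refine Finset.sum_congr rfl fun j _ => ?_
    rw [_root_.smul_apply, hψ j, smul_eq_mul]
  rw [h1]
  exact Submodule.sum_mem _ fun j _ => Submodule.smul_mem _ _
    (Submodule.subset_span ⟨f j, hf j, hψ j⟩)

/-- **Transfer of Tate forms.** -/
theorem transferD [Nontrivial H] (hX : Pool.Agent.Y90.St.IsAV per) (hs : GoodTypeD K per)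
    (ht : Pool.Agent.Y4.Q.IsSeparated per) {E : H → H → ℚ}
    {ρ : Representation K Γ (K ⊗[ℚ] H)} {χ : Γ →* K}
    (hE : Pool.Agent.Y90.St.IsPolarization per E)
    (hρ : Pool.Agent.Y224.TS.St.IsTateModule per E ρ χ) (hB : HasHomotheties ρ)
    {G : Type} [Group G] {τ : Representation K G (K ⊗[ℚ] H)} {χ' : G →* K}
    (hH : HodgeTensorsAreTate per τ χ') (S : Type) [Fintype S] (m : ℕ)
    (φ : MultilinearMap K (fun _ : S => K ⊗[ℚ] H) K) (hφ : IsTateForm ρ χ m φ) :
    IsTateForm τ χ' m φ := by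
  by_cases hc : Fintype.card S = 2 * m
  · let e : S ≃ Fin (2 * m) := Fintype.equivFinOfCardEq hc
    have h1 : IsTateTensor ρ χ m (φ.domDomCongr e) := by
      obtain ⟨Δ, hΔ, h⟩ := hφ
      exact ⟨Δ, hΔ, fun g hg v => h g hg fun k => v (e k)⟩
    have h2 : IsTateTensor τ χ' m (φ.domDomCongr e) := by
      refine Submodule.span_induction (p := fun ψ _ => IsTateTensor τ χ' m ψ) ?_ ?_ ?_ ?_
        (mem_span_ofD hX hs ht hE hρ h1)
      · rintro ψ ⟨f, hf, h1⟩
        exact hH m f hf ψ h1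
      · exact IsTateTensor.zero
      · intro a b _ _ ha hb
        exact ha.add hb
      · intro c a _ ha
        exact ha.smul c
    obtain ⟨Δ, hΔ, h⟩ := h2
    refine ⟨Δ, hΔ, fun g hg v => ?_⟩
    have h3 := h g hg fun k => v (e.symm k)
    rw [MultilinearMap.domDomCongr_apply, MultilinearMap.domDomCongr_apply] at h3
    simpa only [Equiv.symm_apply_apply] using h3
  · obtain ⟨ω, hω, hωρ⟩ := hρ.weil
    rw [zero_of_ne hX hE hω hωρ hB hφ hc]
    exact ⟨⊤, inferInstance, fun g _ v => by rw [_root_.zero_apply, _root_.zero_apply, mul_zero]⟩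

/-- **The monodromy groups.** -/
theorem monodromy_leD [Nontrivial H] [FiniteDimensional K (K ⊗[ℚ] H)]
    (hX : Pool.Agent.Y90.St.IsAV per) (hs : GoodTypeD K per)
    (ht : Pool.Agent.Y4.Q.IsSeparated per) {E : H → H → ℚ}
    {ρ : Representation K Γ (K ⊗[ℚ] H)} {χ : Γ →* K}
    (hE : Pool.Agent.Y90.St.IsPolarization per E)
    (hρ : Pool.Agent.Y224.TS.St.IsTateModule per E ρ χ) (hB : HasHomotheties ρ)
    (hss : TensorSemisimple ρ) {G : Type} [Group G] {τ : Representation K G (K ⊗[ℚ] H)}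
    {χ' : G →* K} (hH : HodgeTensorsAreTate per τ χ') : monodromy τ ⊆ monodromy ρ := by
  obtain ⟨ω, hω, hωρ⟩ := hρ.weil
  exact monodromy_le ω (nondeg_of hX hE hω) hωρ hss
    fun S _ m φ hφ => transferD hX hs ht hE hρ hB hH S m φ hφ

end

end Pool.Agent.H943.LA
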